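import Mathlib

namespace CVE

/-- `B ^ ω(n) ≤ B ^ B * n` -/
theorem pow_omega_le (B n : ℕ) (hn : 0 < n) : B ^ n.primeFactors.card ≤ B ^ B * n := by
  rcases Nat.eq_zero_or_pos B with rfl | hB
  · rcases Nat.eq_zero_or_pos n.primeFactors.card with h | h
    · rw [h]; simp; omega
    · rw [Nat.zero_pow h]; omega
  rw [← Finset.prod_const, ← Finset.prod_filter_mul_prod_filter_not n.primeFactors (fun p => p < B)]
  refine Nat.mul_le_mul ?_ ?_
  · rw [Finset.prod_const]
    refine Nat.pow_le_pow_right hB ?_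
    calc (n.primeFactors.filter (fun p => p < B)).card ≤ (Finset.range B).card := by
          refine Finset.card_le_card (fun p hp => ?_)
          exact Finset.mem_range.2 (Finset.mem_filter.1 hp).2
      _ = B := Finset.card_range B
  · calc ∏ _p ∈ n.primeFactors.filter (fun p => ¬ p < B), B
        ≤ ∏ p ∈ n.primeFactors.filter (fun p => ¬ p < B), p := by
          refine Finset.prod_le_prod' (fun p hp => ?_)
          exact not_lt.1 (Finset.mem_filter.1 hp).2
      _ ≤ ∏ p ∈ n.primeFactors, p := by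
          refine Finset.prod_le_prod_of_subset_of_one_le' (Finset.filter_subset _ _)
            (fun p hp _ => ?_)
          exact (Nat.prime_of_mem_primeFactors hp).one_le
      _ ≤ n := Nat.le_of_dvd hn (Nat.prod_primeFactors_dvd n)

/-- `(B ^ ω(n)) ^ t ≤ C * n` with `C` depending on `B`, `t` only -/
theorem pow_omega_pow_le (B t : ℕ) : ∃ C : ℕ, 0 < C ∧ ∀ n : ℕ, 0 < n →
    (B ^ n.primeFactors.card) ^ t ≤ C * n := by
  rcases Nat.eq_zero_or_pos B with rfl | hB
  · refine ⟨1, one_pos, fun n hn => ?_⟩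
    rw [← pow_mul]
    rcases Nat.eq_zero_or_pos (n.primeFactors.card * t) with h | h
    · rw [h]; simp; omega
    · rw [Nat.zero_pow h]; omega
  refine ⟨(B ^ t) ^ (B ^ t), by positivity, fun n hn => ?_⟩
  have := pow_omega_le (B ^ t) n hn
  rwa [← pow_mul, Nat.mul_comm t, pow_mul] at this

/-- eventually `B ^ ω(n)` times a constant is below any root of `n`:
`(K * B ^ ω(n)) ^ t ≤ n` for large `n` -/
theorem eventually_pow_omega (B t K : ℕ) : ∃ n0 : ℕ, ∀ n : ℕ, n0 ≤ n →
    (K * B ^ n.primeFactors.card) ^ t ≤ n := by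
  obtain ⟨C, hC, h⟩ := pow_omega_pow_le B (t + t)
  refine ⟨(K ^ (t + t) * C) + 1, fun n hn => ?_⟩
  have hn0 : 0 < n := by omega
  have h1 := h n hn0
  have h2 : ((K * B ^ n.primeFactors.card) ^ t) ^ 2 ≤ n ^ 2 := by
    calc ((K * B ^ n.primeFactors.card) ^ t) ^ 2
        = K ^ (t + t) * (B ^ n.primeFactors.card) ^ (t + t) := by
          rw [← pow_mul, mul_pow, mul_two]
      _ ≤ K ^ (t + t) * (C * n) := Nat.mul_le_mul_left _ h1
      _ = (K ^ (t + t) * C) * n := by ring
      _ ≤ n * n := Nat.mul_le_mul_right _ (by omega)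
      _ = n ^ 2 := by ring
  exact (Nat.pow_le_pow_iff_left (by norm_num)).1 h2

end CVE
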