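import Mathlib

namespace CVE

open Polynomial

/-- an exponential sum with `N` bases vanishing on `N` consecutive integers vanishes everywhere -/
theorem expSum_zero {ι : Type*} (T : Finset ι) (c z : ι → ℂ) (hz : ∀ i ∈ T, z i ≠ 0)
    (f : ℤ → ℂ) (hf : ∀ x, f x = ∑ i ∈ T, c i * z i ^ x) (s : ℤ)
    (h0 : ∀ x, s ≤ x → x < s + T.card → f x = 0) : ∀ x, f x = 0 := by
  classical
  set P : ℂ[X] := ∏ i ∈ T, (X - C (z i)) with hP
  have hmon : P.Monic := monic_prod_of_monic _ _ (fun i _ => monic_X_sub_C _)
  have hdeg : P.natDegree = T.card := by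
    rw [hP, natDegree_prod_of_monic _ _ (fun i _ => monic_X_sub_C _)]
    simp
  have h0c : P.coeff 0 ≠ 0 := by
    rw [coeff_zero_eq_eval_zero, hP, eval_prod]
    refine Finset.prod_ne_zero_iff.2 (fun i hi => ?_)
    simpa using hz i hi
  have hroot : ∀ i ∈ T, P.eval (z i) = 0 := by
    intro i hi
    rw [hP, eval_prod]
    exact Finset.prod_eq_zero hi (by simp)
  have hrec : ∀ x : ℤ, ∑ k ∈ Finset.range (T.card + 1), P.coeff k * f (x + k) = 0 := by
    intro x
    have : ∀ i ∈ T, ∑ k ∈ Finset.range (T.card + 1), P.coeff k * (c i * z i ^ (x + (k : ℤ))) = 0 := by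
      intro i hi
      have h1 := hroot i hi
      rw [eval_eq_sum_range, hdeg] at h1
      have h2 : ∀ k ∈ Finset.range (T.card + 1),
          P.coeff k * (c i * z i ^ (x + (k : ℤ))) = (c i * z i ^ x) * (P.coeff k * z i ^ k) := by
        intro k _
        rw [zpow_add₀ (hz i hi), zpow_natCast]
        ring
      rw [Finset.sum_congr rfl h2, ← Finset.mul_sum, h1, mul_zero]
    calc ∑ k ∈ Finset.range (T.card + 1), P.coeff k * f (x + k)
        = ∑ k ∈ Finset.range (T.card + 1), ∑ i ∈ T, P.coeff k * (c i * z i ^ (x + (k : ℤ))) := by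
          refine Finset.sum_congr rfl (fun k _ => ?_)
          rw [hf, Finset.mul_sum]
      _ = ∑ i ∈ T, ∑ k ∈ Finset.range (T.card + 1), P.coeff k * (c i * z i ^ (x + (k : ℤ))) :=
          Finset.sum_comm
      _ = 0 := Finset.sum_eq_zero this
  -- windows
  have hwin : ∀ t : ℤ, (∀ x, t ≤ x → x < t + T.card → f x = 0) →
      (∀ x, t + 1 ≤ x → x < t + 1 + T.card → f x = 0) := by
    intro t ht x hx1 hx2
    by_cases hx : x < t + T.card
    · exact ht x (by omega) hx
    · have hxe : x = t + T.card := by omega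
      have h1 := hrec t
      rw [Finset.sum_range_succ, Finset.sum_eq_zero (fun k hk => by
        rw [ht (t + k) (by omega) (by have := Finset.mem_range.1 hk; omega), mul_zero])] at h1
      have h2 : P.coeff T.card = 1 := by rw [← hdeg]; exact hmon
      rw [h2, zero_add, one_mul] at h1
      rw [hxe]; exact h1
  have hwin' : ∀ t : ℤ, (∀ x, t ≤ x → x < t + T.card → f x = 0) →
      (∀ x, t - 1 ≤ x → x < t - 1 + T.card → f x = 0) := by
    intro t ht x hx1 hx2
    by_cases hx : t ≤ x
    · exact ht x hx (by omega)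
    · have hxe : x = t - 1 := by omega
      have h1 := hrec (t - 1)
      rw [Finset.sum_range_succ', Finset.sum_eq_zero (fun k hk => by
        rw [ht (t - 1 + (k + 1 : ℕ)) (by push_cast; omega)
          (by have := Finset.mem_range.1 hk; push_cast; omega), mul_zero])] at h1
      simp only [Nat.cast_zero, add_zero, zero_add] at h1
      rw [hxe]
      exact (mul_eq_zero.1 h1).resolve_left h0c
  have hup : ∀ k : ℕ, ∀ x, s + k ≤ x → x < s + k + T.card → f x = 0 := by
    intro k
    induction k with
    | zero => simpa using h0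
    | succ k ih =>
      have := hwin (s + k) ih
      intro x hx1 hx2
      exact this x (by push_cast at hx1; omega) (by push_cast at hx2; omega)
  have hdown : ∀ k : ℕ, ∀ x, s - k ≤ x → x < s - k + T.card → f x = 0 := by
    intro k
    induction k with
    | zero => simpa using h0
    | succ k ih =>
      have := hwin' (s - k) ih
      intro x hx1 hx2
      exact this x (by push_cast at hx1; omega) (by push_cast at hx2; omega)
  intro x
  by_cases hT : T.card = 0
  · rw [hf, Finset.card_eq_zero.1 hT]; simp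
  · by_cases hx : s ≤ x
    · exact hup (x - s).toNat x (by omega) (by omega)
    · exact hdown (s - x).toNat x (by omega) (by omega)

/-- Crittenden - Vanden Eynden: `n` residue classes which do not cover the integers miss a number
among any `2 ^ n` consecutive integers. -/
theorem cve (n : ℕ) (a m : Fin n → ℤ) (hm : ∀ i, 0 < m i)
    (h : ∃ x : ℤ, ∀ i, ¬ (m i ∣ x - a i)) (s : ℤ) :
    ∃ x : ℤ, s ≤ x ∧ x < s + 2 ^ n ∧ ∀ i, ¬ (m i ∣ x - a i) := by
  classical
  by_contra hcon
  push Not at hcon
  obtain ⟨x0, hx0⟩ := h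
  set ζ : Fin n → ℂ := fun i => Complex.exp (2 * Real.pi * Complex.I / ((m i).toNat : ℕ)) with hζ
  have hprim : ∀ i, IsPrimitiveRoot (ζ i) (m i).toNat := by
    intro i
    exact Complex.isPrimitiveRoot_exp _ (by have := hm i; omega)
  have hζ0 : ∀ i, ζ i ≠ 0 := fun i => Complex.exp_ne_zero _
  have hone : ∀ (i : Fin n) (y : ℤ), ζ i ^ y = 1 ↔ m i ∣ y := by
    intro i y
    rw [(hprim i).zpow_eq_one_iff_dvd]
    have : (((m i).toNat : ℕ) : ℤ) = m i := Int.toNat_of_nonneg (hm i).le
    rw [this]
  set f : ℤ → ℂ := fun x => ∏ i, (1 + (- ζ i ^ (x - a i))) with hf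
  have hfz : ∀ x, f x = 0 ↔ ∃ i, m i ∣ x - a i := by
    intro x
    rw [hf]
    simp only [Finset.prod_eq_zero_iff, Finset.mem_univ, true_and]
    constructor
    · rintro ⟨i, hi⟩
      refine ⟨i, (hone i _).1 ?_⟩
      linear_combination -hi
    · rintro ⟨i, hi⟩
      exact ⟨i, by rw [(hone i _).2 hi]; ring⟩
  have key := expSum_zero (Finset.univ : Finset (Fin n)).powerset
    (fun S => ∏ i ∈ S, (- ζ i ^ (- a i))) (fun S => ∏ i ∈ S, ζ i)
    (fun S _ => Finset.prod_ne_zero_iff.2 (fun i _ => hζ0 i)) f (by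
      intro x
      simp only [hf]
      rw [Finset.prod_one_add]
      refine Finset.sum_congr rfl (fun S _ => ?_)
      rw [← Finset.prod_zpow, ← Finset.prod_mul_distrib]
      refine Finset.prod_congr rfl (fun i _ => ?_)
      rw [sub_eq_add_neg, zpow_add₀ (hζ0 i)]
      ring) s (by
      intro x hx1 hx2
      rw [hfz]
      have hc : ((Finset.univ : Finset (Fin n)).powerset.card : ℤ) = 2 ^ n := by
        rw [Finset.card_powerset]; simp
      exact hcon x hx1 (by rw [← hc]; exact hx2))
  obtain ⟨i, hi⟩ := (hfz x0).1 (key x0)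
  exact hx0 i hi

end CVE
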