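import Mathlib

open Finset Matrix

namespace Pool.Agent.Helper83.DetLB

/-- The determinant lower bound of `A`: the supremum (a maximum when `m, n ≥ 1`) of
`|det A_{S,T}|^{1/k}` over `k ≥ 1` and `k`-subsets `S` of the rows and `T` of the columns.  A
`k`-subset is given by its increasing enumeration. -/
noncomputable def detLB {m n : ℕ} (A : Matrix (Fin m) (Fin n) ℝ) : ℝ :=
  sSup {x : ℝ | ∃ k : ℕ, 1 ≤ k ∧ ∃ (S : Fin k ↪o Fin m) (T : Fin k ↪o Fin n),
    x = |(A.submatrix S T).det| ^ (1 / (k : ℝ))}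

/-- Feasibility of `(A, S, lam)`: a partial vector colouring of the columns in `S` for which each
row has discrepancy at most `lam`. -/
def Feasible {m n : ℕ} (A : Matrix (Fin m) (Fin n) ℝ) (S : Finset (Fin n)) (lam : ℝ) : Prop :=
  ∃ (d : ℕ) (v : Fin n → EuclideanSpace ℝ (Fin d)),
    (∀ i, ‖∑ j ∈ S, A i j • v j‖ ^ 2 ≤ lam ^ 2) ∧
    (S.card : ℝ) / 2 ≤ ∑ j, ‖v j‖ ^ 2 ∧
    (∀ j ∈ S, ‖v j‖ ^ 2 ≤ 1) ∧ (∀ j ∉ S, v j = 0)

/-- The hereditary partial vector discrepancy of `A`: the least `lam ≥ 0` for which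
`(A, S, lam)` is feasible for every set `S` of columns. -/
noncomputable def herpvdisc {m n : ℕ} (A : Matrix (Fin m) (Fin n) ℝ) : ℝ :=
  sInf {lam : ℝ | 0 ≤ lam ∧ ∀ S : Finset (Fin n), Feasible A S lam}

end Pool.Agent.Helper83.DetLB
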