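import Mathlib
import Pool.Agent.Helper83.DetLBDefs

open Finset Matrix

namespace Pool.Agent.Helper83.DetLB

/-- The sign of `i` in the sign pattern coded by the finite set `u`. -/
def sg {ι : Type*} [DecidableEq ι] (u : Finset ι) (i : ι) : ℝ := if i ∈ u then 1 else -1

theorem sg_insert_self {ι : Type*} [DecidableEq ι] (u : Finset ι) (a : ι) :
    sg (insert a u) a = 1 := by simp [sg]

theorem sg_of_notMem {ι : Type*} [DecidableEq ι] {u : Finset ι} {a : ι} (h : a ∉ u) :
    sg u a = -1 := by simp [sg, h]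

theorem sg_insert_of_ne {ι : Type*} [DecidableEq ι] (u : Finset ι) {a i : ι} (h : i ≠ a) :
    sg (insert a u) i = sg u i := by simp [sg, h]

theorem sum_sg_powerset_insert {ι : Type*} [DecidableEq ι] (v : ι → ℝ) (T : Finset ι) (a : ι)
    (ha : a ∉ T) (g : ℝ → ℝ) :
    ∑ u ∈ (insert a T).powerset, g (∑ i ∈ insert a T, sg u i * v i) =
      ∑ u ∈ T.powerset, (g (∑ i ∈ T, sg u i * v i - v a) + g (∑ i ∈ T, sg u i * v i + v a)) := by
  rw [Finset.sum_powerset_insert ha, ← Finset.sum_add_distrib]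
  refine Finset.sum_congr rfl fun u hu => ?_
  have hau : a ∉ u := fun h => ha (Finset.mem_powerset.1 hu h)
  congr 2
  · rw [Finset.sum_insert ha, sg_of_notMem hau]; ring
  · rw [Finset.sum_insert ha, sg_insert_self, one_mul, add_comm]
    congr 1
    refine Finset.sum_congr rfl fun i hi => ?_
    rw [sg_insert_of_ne]
    rintro rfl
    exact ha hi

theorem second_moment {ι : Type*} [DecidableEq ι] (v : ι → ℝ) (T : Finset ι) :
    ∑ u ∈ T.powerset, (∑ i ∈ T, sg u i * v i) ^ 2 = 2 ^ T.card * ∑ i ∈ T, v i ^ 2 := by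
  induction T using Finset.induction_on with
  | empty => simp
  | insert a T ha ih =>
    rw [sum_sg_powerset_insert v T a ha (fun x => x ^ 2), Finset.card_insert_of_notMem ha,
      Finset.sum_insert ha]
    have h1 : ∀ u ∈ T.powerset, ((∑ i ∈ T, sg u i * v i - v a) ^ 2 +
        (∑ i ∈ T, sg u i * v i + v a) ^ 2) = 2 * (∑ i ∈ T, sg u i * v i) ^ 2 + 2 * v a ^ 2 := by
      intro u _; ring
    rw [Finset.sum_congr rfl h1, Finset.sum_add_distrib, ← Finset.mul_sum, ih,
      Finset.sum_const, Finset.card_powerset]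
    simp only [nsmul_eq_mul, Nat.cast_pow, Nat.cast_ofNat]
    ring

theorem fourth_moment {ι : Type*} [DecidableEq ι] (v : ι → ℝ) (T : Finset ι) :
    ∑ u ∈ T.powerset, (∑ i ∈ T, sg u i * v i) ^ 4 ≤ 3 * 2 ^ T.card * (∑ i ∈ T, v i ^ 2) ^ 2 := by
  induction T using Finset.induction_on with
  | empty => simp
  | insert a T ha ih =>
    rw [sum_sg_powerset_insert v T a ha (fun x => x ^ 4), Finset.card_insert_of_notMem ha,
      Finset.sum_insert ha]
    have h1 : ∀ u ∈ T.powerset, ((∑ i ∈ T, sg u i * v i - v a) ^ 4 +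
        (∑ i ∈ T, sg u i * v i + v a) ^ 4) = 2 * (∑ i ∈ T, sg u i * v i) ^ 4 +
          12 * v a ^ 2 * (∑ i ∈ T, sg u i * v i) ^ 2 + 2 * v a ^ 4 := by
      intro u _; ring
    rw [Finset.sum_congr rfl h1, Finset.sum_add_distrib, Finset.sum_add_distrib,
      ← Finset.mul_sum, ← Finset.mul_sum, second_moment, Finset.sum_const, Finset.card_powerset]
    simp only [nsmul_eq_mul, Nat.cast_pow, Nat.cast_ofNat]
    have h3 : 0 ≤ v a ^ 4 * 2 ^ T.card := by positivity
    rw [pow_succ (2:ℝ) T.card]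
    generalize (2:ℝ) ^ T.card = P at *
    generalize ∑ i ∈ T, v i ^ 2 = X at *
    have e : 3 * (P * 2) * (v a ^ 2 + X) ^ 2 =
      2 * (3 * P * X ^ 2) + 12 * v a ^ 2 * (P * X) + 6 * (v a ^ 4 * P) := by ring
    rw [e]
    linarith [ih, h3]

theorem poly_le_abs (t : ℝ) : t ^ 2 - 4 / 27 * t ^ 4 ≤ |t| := by
  have h : ∀ s : ℝ, 0 ≤ s → s ^ 2 - 4 / 27 * s ^ 4 ≤ s := by
    intro s hs
    have : s - (s ^ 2 - 4 / 27 * s ^ 4) = s * ((2 * s - 3) ^ 2 * (s + 3)) / 27 := by ring
    have h2 : 0 ≤ s * ((2 * s - 3) ^ 2 * (s + 3)) / 27 := by positivity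
    linarith
  have := h |t| (abs_nonneg t)
  have e2 : |t| ^ 2 = t ^ 2 := sq_abs t
  have e4 : |t| ^ 4 = t ^ 4 := by
    rw [show (4:ℕ) = 2 * 2 by norm_num, pow_mul, pow_mul, e2]
  rwa [e2, e4] at this

/-- Fewer than half of the subsets have size smaller than half. -/
theorem card_small_sets (s : ℕ) :
    2 * ((Finset.univ : Finset (Finset (Fin s))).filter (fun S => 2 * S.card < s)).card ≤ 2 ^ s := by
  set F := (Finset.univ : Finset (Finset (Fin s))).filter (fun S => 2 * S.card < s) with hF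
  set F' := F.image (fun S => Sᶜ) with hF'
  have hcard : F'.card = F.card := Finset.card_image_of_injective _ compl_injective
  have hdisj : Disjoint F F' := by
    rw [Finset.disjoint_left]
    intro S hS hS'
    rw [hF, Finset.mem_filter] at hS
    rw [hF', Finset.mem_image] at hS'
    obtain ⟨U, hU, rfl⟩ := hS'
    rw [hF, Finset.mem_filter] at hU
    have := Finset.card_compl U
    rw [Fintype.card_fin] at this
    omega
  have h1 : (F ∪ F').card ≤ 2 ^ s := by
    calc (F ∪ F').card ≤ (Finset.univ : Finset (Finset (Fin s))).card :=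
          Finset.card_le_card (Finset.subset_univ _)
      _ = 2 ^ s := by simp
  rw [Finset.card_union_of_disjoint hdisj, hcard] at h1
  omega

/-- Step 1: a large shattered set on which the `ℓ¹` norm is controlled. -/
theorem exists_shattered {m s : ℕ} (hs : 1 ≤ s) (C : Matrix (Fin m) (Fin s) ℝ)
    (P : Matrix (Fin m) (Fin s) ℝ) (hP : Pᵀ * C = 1) :
    ∃ S' : Finset (Fin s), s ≤ 2 * S'.card ∧ ∀ x : Fin s → ℝ, (∀ j ∉ S', x j = 0) →
      (∑ j ∈ S', |x j|) ^ 2 ≤
        2 * (∑ i, ∑ j, P i j ^ 2) * ∑ i, (∑ j, C i j * x j) ^ 2 := by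
  classical
  set T : ℝ := ∑ i, ∑ j, P i j ^ 2 with hT
  set Q : Finset (Fin s) → ℝ := fun u => ∑ i, (∑ j, sg u j * P i j) ^ 2 with hQ
  have hQsum : ∑ u : Finset (Fin s), Q u = 2 ^ s * T := by
    rw [hQ, Finset.sum_comm, hT, Finset.mul_sum]
    refine Finset.sum_congr rfl fun i _ => ?_
    have := second_moment (fun j => P i j) (Finset.univ : Finset (Fin s))
    rw [Finset.powerset_univ, Finset.card_univ, Fintype.card_fin] at this
    exact this
  have hQnn : ∀ u, 0 ≤ Q u := fun u => Finset.sum_nonneg fun i _ => sq_nonneg _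
  have hTnn : 0 ≤ T := Finset.sum_nonneg fun i _ => Finset.sum_nonneg fun j _ => sq_nonneg _
  set A := (Finset.univ : Finset (Finset (Fin s))).filter (fun u => Q u ≤ 2 * T) with hA
  -- T is positive
  have hTpos : 0 < T := by
    rcases hTnn.lt_or_eq with h | h
    · exact h
    · exfalso
      have h0 : ∀ i j, P i j = 0 := by
        intro i j
        have h1 := (Finset.sum_eq_zero_iff_of_nonneg (fun i _ =>
          Finset.sum_nonneg fun j _ => sq_nonneg (P i j))).1 h.symm i (Finset.mem_univ _)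
        have h2 := (Finset.sum_eq_zero_iff_of_nonneg (fun j _ => sq_nonneg (P i j))).1 h1 j
          (Finset.mem_univ _)
        exact pow_eq_zero_iff (two_ne_zero) |>.1 h2
      have h3 : (Pᵀ * C) ⟨0, hs⟩ ⟨0, hs⟩ = 1 := by rw [hP]; simp
      rw [Matrix.mul_apply] at h3
      simp [Matrix.transpose_apply, h0] at h3
  -- Markov
  have hmarkov : 2 * (Aᶜ).card < 2 ^ s := by
    by_cases hne : (Aᶜ).card = 0
    · rw [hne]; positivity
    · have hlt : ((Aᶜ).card : ℝ) * (2 * T) < 2 ^ s * T := by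
        calc ((Aᶜ).card : ℝ) * (2 * T) = ∑ _u ∈ Aᶜ, 2 * T := by
              rw [Finset.sum_const, nsmul_eq_mul]
          _ < ∑ u ∈ Aᶜ, Q u := by
              apply Finset.sum_lt_sum_of_nonempty
              · exact Finset.card_pos.1 (Nat.pos_of_ne_zero hne)
              · intro u hu
                rw [Finset.mem_compl, hA, Finset.mem_filter] at hu
                simpa using hu
          _ ≤ ∑ u, Q u := Finset.sum_le_univ_sum_of_nonneg hQnn
          _ = 2 ^ s * T := hQsum
      have h2 : ((Aᶜ).card : ℝ) * 2 < 2 ^ s := by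
        by_contra hcon
        push Not at hcon
        nlinarith
      have h3 : (((Aᶜ).card * 2 : ℕ) : ℝ) < ((2 ^ s : ℕ) : ℝ) := by push_cast; exact h2
      have := Nat.cast_lt.1 h3
      omega
  have hAcard : 2 ^ s < 2 * A.card := by
    have := Finset.card_compl A
    have hle : A.card ≤ 2 ^ s := by
      calc A.card ≤ (Finset.univ : Finset (Finset (Fin s))).card := Finset.card_le_univ _
        _ = 2 ^ s := by simp
    simp only [Fintype.card_finset, Fintype.card_fin] at this
    omega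
  -- Sauer-Shelah-Pajor
  have hex : ∃ S' ∈ A.shatterer, s ≤ 2 * S'.card := by
    by_contra hcon
    push Not at hcon
    have hsub : A.shatterer ⊆
        (Finset.univ : Finset (Finset (Fin s))).filter (fun S => 2 * S.card < s) := by
      intro S hS
      exact Finset.mem_filter.2 ⟨Finset.mem_univ _, hcon S hS⟩
    have h1 := Finset.card_le_card hsub
    have h2 := A.card_le_card_shatterer
    have h3 := card_small_sets s
    omega
  obtain ⟨S', hS'mem, hS'card⟩ := hex
  rw [Finset.mem_shatterer] at hS'mem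
  refine ⟨S', hS'card, fun x hx => ?_⟩
  obtain ⟨u, huA, hu⟩ := hS'mem (Finset.filter_subset (fun j => 0 ≤ x j) S')
  rw [hA, Finset.mem_filter] at huA
  have hQu := huA.2
  have habs : ∀ j ∈ S', sg u j * x j = |x j| := by
    intro j hj
    have hmem : j ∈ S' ∩ u ↔ j ∈ S'.filter (fun j => 0 ≤ x j) := by rw [hu]
    rw [Finset.mem_inter, Finset.mem_filter] at hmem
    by_cases h : 0 ≤ x j
    · have : j ∈ u := (hmem.2 ⟨hj, h⟩).2
      simp [sg, this, abs_of_nonneg h]
    · have : j ∉ u := fun hju => h (hmem.1 ⟨hj, hju⟩).2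
      push Not at h
      simp [sg, this, abs_of_neg h]
  have hsum : ∑ j ∈ S', |x j| = ∑ i, (∑ j, sg u j * P i j) * (∑ j, C i j * x j) := by
    have e1 : ∑ j ∈ S', |x j| = ∑ j, sg u j * x j := by
      rw [← Finset.sum_subset (Finset.subset_univ S')]
      · exact Finset.sum_congr rfl fun j hj => (habs j hj).symm
      · intro j _ hj; rw [hx j hj, mul_zero]
    have e2 : ∀ j, x j = ∑ i, P i j * (∑ l, C i l * x l) := by
      intro j
      have h1 : ((Pᵀ * C) *ᵥ x) j = x j := by rw [hP, Matrix.one_mulVec]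
      rw [← h1, ← Matrix.mulVec_mulVec]
      simp only [Matrix.mulVec, dotProduct, Matrix.transpose_apply]
    rw [e1]
    calc ∑ j, sg u j * x j = ∑ j, sg u j * ∑ i, P i j * (∑ l, C i l * x l) := by
          refine Finset.sum_congr rfl fun j _ => ?_
          rw [← e2 j]
      _ = ∑ i, (∑ j, sg u j * P i j) * (∑ j, C i j * x j) := by
          simp only [Finset.mul_sum, Finset.sum_mul]
          rw [Finset.sum_comm]
          refine Finset.sum_congr rfl fun i _ => ?_
          rw [Finset.sum_comm]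
          refine Finset.sum_congr rfl fun l _ => ?_
          refine Finset.sum_congr rfl fun j _ => ?_
          ring
  rw [hsum]
  calc (∑ i, (∑ j, sg u j * P i j) * (∑ j, C i j * x j)) ^ 2
      ≤ (∑ i, (∑ j, sg u j * P i j) ^ 2) * ∑ i, (∑ j, C i j * x j) ^ 2 :=
        Finset.sum_mul_sq_le_sq_mul_sq _ _ _
    _ ≤ 2 * T * ∑ i, (∑ j, C i j * x j) ^ 2 := by
        apply mul_le_mul_of_nonneg_right hQu
        exact Finset.sum_nonneg fun i _ => sq_nonneg _

/-- Step 2: from the scalar inequality to vector colourings. -/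
theorem vec_bound {m s d : ℕ} (C : Matrix (Fin m) (Fin s) ℝ) (S' : Finset (Fin s)) (K : ℝ)
    (hK0 : 0 ≤ K)
    (hK : ∀ x : Fin s → ℝ, (∀ j ∉ S', x j = 0) →
      (∑ j ∈ S', |x j|) ^ 2 ≤ K * ∑ i, (∑ j, C i j * x j) ^ 2)
    (w : Fin s → EuclideanSpace ℝ (Fin d)) (hw0 : ∀ j ∉ S', w j = 0)
    (hw1 : ∀ j ∈ S', ‖w j‖ ^ 2 ≤ 1) (lam : ℝ)
    (hrow : ∀ i, ‖∑ j, C i j • w j‖ ^ 2 ≤ lam ^ 2) :
    (5 / 9 * ∑ j ∈ S', ‖w j‖ ^ 2) ^ 2 ≤ K * (m * lam ^ 2) := by
  classical
  set c : ℝ := 5 / 9 * ∑ j ∈ S', ‖w j‖ ^ 2 with hc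
  have hcnn : 0 ≤ c := by
    rw [hc]; exact mul_nonneg (by norm_num) (Finset.sum_nonneg fun j _ => sq_nonneg _)
  set X : Finset (Fin d) → Fin s → ℝ := fun u j => ∑ l, sg u l * (w j) l with hX
  have hnorm : ∀ j, ‖w j‖ ^ 2 = ∑ l, (w j) l ^ 2 := by
    intro j
    rw [EuclideanSpace.norm_sq_eq]
    simp
  -- moments
  have hm2 : ∀ j, ∑ u : Finset (Fin d), X u j ^ 2 = 2 ^ d * ‖w j‖ ^ 2 := by
    intro j
    have := second_moment (fun l => (w j) l) (Finset.univ : Finset (Fin d))
    rw [Finset.powerset_univ, Finset.card_univ, Fintype.card_fin] at this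
    rw [hnorm]; exact this
  have hm4 : ∀ j, ∑ u : Finset (Fin d), X u j ^ 4 ≤ 3 * 2 ^ d * (‖w j‖ ^ 2) ^ 2 := by
    intro j
    have := fourth_moment (fun l => (w j) l) (Finset.univ : Finset (Fin d))
    rw [Finset.powerset_univ, Finset.card_univ, Fintype.card_fin] at this
    rw [hnorm]; exact this
  have hrow2 : ∀ i, ∑ u : Finset (Fin d), (∑ j, C i j * X u j) ^ 2 ≤ 2 ^ d * lam ^ 2 := by
    intro i
    have e1 : ∀ u : Finset (Fin d), ∑ j, C i j * X u j =
        ∑ l, sg u l * (∑ j, C i j • w j) l := by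
      intro u
      simp only [hX]
      have : ∀ l, (∑ j, C i j • w j) l = ∑ j, C i j * (w j) l := by
        intro l
        simp
      simp only [this, Finset.mul_sum]
      rw [Finset.sum_comm]
      refine Finset.sum_congr rfl fun l _ => Finset.sum_congr rfl fun j _ => ?_
      ring
    simp only [e1]
    have := second_moment (fun l => (∑ j, C i j • w j) l) (Finset.univ : Finset (Fin d))
    rw [Finset.powerset_univ, Finset.card_univ, Fintype.card_fin] at this
    rw [this]
    apply mul_le_mul_of_nonneg_left _ (by positivity)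
    have h2 := hrow i
    rw [EuclideanSpace.norm_sq_eq] at h2
    simpa using h2
  -- pointwise inequality
  have hpt : ∀ u : Finset (Fin d),
      2 * c * ∑ j ∈ S', (X u j ^ 2 - 4 / 27 * X u j ^ 4) - c ^ 2 ≤
        K * ∑ i, (∑ j, C i j * X u j) ^ 2 := by
    intro u
    have hx0 : ∀ j ∉ S', X u j = 0 := by
      intro j hj
      simp [hX, hw0 j hj]
    have h1 := hK (X u) hx0
    have h2 : ∑ j ∈ S', (X u j ^ 2 - 4 / 27 * X u j ^ 4) ≤ ∑ j ∈ S', |X u j| :=
      Finset.sum_le_sum fun j _ => poly_le_abs _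
    have h3 : 2 * c * ∑ j ∈ S', |X u j| - c ^ 2 ≤ (∑ j ∈ S', |X u j|) ^ 2 := by
      nlinarith [sq_nonneg (∑ j ∈ S', |X u j| - c)]
    have h4 : 2 * c * ∑ j ∈ S', (X u j ^ 2 - 4 / 27 * X u j ^ 4) ≤
        2 * c * ∑ j ∈ S', |X u j| := mul_le_mul_of_nonneg_left h2 (by positivity)
    linarith
  have hsum := Finset.sum_le_sum (fun u (_ : u ∈ (Finset.univ : Finset (Finset (Fin d)))) => hpt u)
  rw [Finset.sum_sub_distrib, ← Finset.mul_sum, ← Finset.mul_sum, Finset.sum_comm,
    Finset.sum_const, Finset.card_univ, Fintype.card_finset, Fintype.card_fin] at hsum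
  have hR : K * ∑ u : Finset (Fin d), ∑ i, (∑ j, C i j * X u j) ^ 2 ≤
      2 ^ d * (K * (m * lam ^ 2)) := by
    rw [Finset.sum_comm]
    have : ∑ i : Fin m, ∑ u : Finset (Fin d), (∑ j, C i j * X u j) ^ 2 ≤
        ∑ _i : Fin m, 2 ^ d * lam ^ 2 := Finset.sum_le_sum fun i _ => hrow2 i
    rw [Finset.sum_const, Finset.card_univ, Fintype.card_fin, nsmul_eq_mul] at this
    calc K * _ ≤ K * (m * (2 ^ d * lam ^ 2)) := mul_le_mul_of_nonneg_left this hK0
      _ = 2 ^ d * (K * (m * lam ^ 2)) := by ring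
  have hL : 2 ^ d * c ≤ ∑ j ∈ S', ∑ u : Finset (Fin d), (X u j ^ 2 - 4 / 27 * X u j ^ 4) := by
    rw [hc, Finset.mul_sum, Finset.mul_sum]
    refine Finset.sum_le_sum fun j hj => ?_
    rw [Finset.sum_sub_distrib, ← Finset.mul_sum, hm2 j]
    have h4 := hm4 j
    have h1 := hw1 j hj
    have h0 : 0 ≤ ‖w j‖ ^ 2 := sq_nonneg _
    have hp : (0:ℝ) < 2 ^ d := by positivity
    generalize ‖w j‖ ^ 2 = r at *
    generalize (2:ℝ) ^ d = p at *
    have : 0 ≤ p * (r * (1 - r)) := by
      apply mul_nonneg hp.le (mul_nonneg h0 (by linarith))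
    nlinarith
  have h5 : 2 * c * (2 ^ d * c) ≤
      2 * c * ∑ j ∈ S', ∑ u : Finset (Fin d), (X u j ^ 2 - 4 / 27 * X u j ^ 4) :=
    mul_le_mul_of_nonneg_left hL (by positivity)
  simp only [nsmul_eq_mul, Nat.cast_pow, Nat.cast_ofNat] at hsum
  have hp : (0:ℝ) < 2 ^ d := by positivity
  have h6 : 2 ^ d * c ^ 2 ≤ 2 ^ d * (K * (m * lam ^ 2)) := by nlinarith
  exact le_of_mul_le_mul_left h6 hp

theorem det_bound {m n : ℕ} (B : Matrix (Fin m) (Fin n) ℝ) (lam : ℝ)
    (H : ∀ S : Finset (Fin n), Feasible B S lam) :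
    ∀ (s : ℕ) (e : Fin s ↪ Fin n),
      (s.factorial : ℝ) * ((Bᵀ * B).submatrix e e).det ≤ (2592 / 25 * (m * lam ^ 2)) ^ s := by
  classical
  intro s
  induction s with
  | zero => intro e; simp
  | succ s ih =>
    intro e
    set G : Matrix (Fin (s + 1)) (Fin (s + 1)) ℝ := (Bᵀ * B).submatrix e e with hG
    set C : Matrix (Fin m) (Fin (s + 1)) ℝ := B.submatrix id e with hC
    have hGC : G = Cᵀ * C := by
      ext i j
      simp [hG, hC, Matrix.mul_apply]
    have hKnn : (0:ℝ) ≤ 2592 / 25 * (m * lam ^ 2) := by positivity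
    rcases le_or_gt G.det 0 with hdet | hdet
    · have h1 : (((s + 1).factorial : ℕ) : ℝ) * G.det ≤ 0 :=
        mul_nonpos_of_nonneg_of_nonpos (Nat.cast_nonneg _) hdet
      exact h1.trans (pow_nonneg hKnn _)
    · have hunit : IsUnit G.det := (ne_of_gt hdet).isUnit
      have hGt : Gᵀ = G := by
        rw [hGC, Matrix.transpose_mul, Matrix.transpose_transpose]
      set P : Matrix (Fin m) (Fin (s + 1)) ℝ := C * G⁻¹ with hPdef
      have hP : Pᵀ * C = 1 := by
        rw [hPdef, Matrix.transpose_mul, Matrix.transpose_nonsing_inv, hGt, Matrix.mul_assoc,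
          ← hGC, Matrix.nonsing_inv_mul _ hunit]
      have hPP : Pᵀ * P = G⁻¹ := by
        conv_lhs => rw [hPdef, ← Matrix.mul_assoc]
        rw [← hPdef, hP, Matrix.one_mul]
      obtain ⟨S', hS'card, hS'⟩ := exists_shattered (Nat.succ_le_succ (Nat.zero_le s)) C P hP
      set T : ℝ := ∑ i, ∑ j, P i j ^ 2 with hT
      have hTnn : 0 ≤ T := Finset.sum_nonneg fun i _ => Finset.sum_nonneg fun j _ => sq_nonneg _
      have hTtr : T = ∑ j, G⁻¹ j j := by
        rw [hT, Finset.sum_comm]
        refine Finset.sum_congr rfl fun j _ => ?_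
        rw [← hPP, Matrix.mul_apply]
        refine Finset.sum_congr rfl fun i _ => ?_
        rw [Matrix.transpose_apply, sq]
      have hentry : ∀ j, (s.factorial : ℝ) * G.det * G⁻¹ j j ≤
          (2592 / 25 * (m * lam ^ 2)) ^ s := by
        intro j
        have h1 : G.det * G⁻¹ j j = (G.submatrix j.succAbove j.succAbove).det := by
          rw [Matrix.inv_def, Matrix.smul_apply, Ring.inverse_eq_inv', smul_eq_mul,
            mul_inv_cancel_left₀ (ne_of_gt hdet), Matrix.adjugate_fin_succ_eq_det_submatrix,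
            ← two_mul, pow_mul]
          simp
        have h2 := ih ((Fin.succAboveEmb j).trans e)
        rw [mul_assoc, h1]
        exact h2
      have hTle : (s.factorial : ℝ) * G.det * T ≤
          (s + 1) * (2592 / 25 * (m * lam ^ 2)) ^ s := by
        rw [hTtr, Finset.mul_sum]
        calc ∑ j, (s.factorial : ℝ) * G.det * G⁻¹ j j
            ≤ ∑ _j : Fin (s + 1), (2592 / 25 * (m * lam ^ 2)) ^ s :=
              Finset.sum_le_sum fun j _ => hentry j
          _ = (s + 1) * (2592 / 25 * (m * lam ^ 2)) ^ s := by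
              rw [Finset.sum_const, Finset.card_univ, Fintype.card_fin, nsmul_eq_mul]
              push_cast; ring
      -- use the colouring of `e '' S'`
      obtain ⟨d, v, hrow, hcard, hle, hzero⟩ := H (S'.map e)
      have hw0 : ∀ j ∉ S', v (e j) = 0 := by
        intro j hj
        apply hzero
        simpa using hj
      have hw1 : ∀ j ∈ S', ‖v (e j)‖ ^ 2 ≤ 1 := by
        intro j hj
        apply hle
        simpa using hj
      have hrow' : ∀ i, ‖∑ j, C i j • v (e j)‖ ^ 2 ≤ lam ^ 2 := by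
        intro i
        have h1 : ∑ j, C i j • v (e j) = ∑ j ∈ S'.map e, B i j • v j := by
          rw [Finset.sum_map]
          rw [← Finset.sum_subset (Finset.subset_univ S')]
          · rfl
          · intro j _ hj
            rw [hw0 j hj, smul_zero]
        rw [h1]
        exact hrow i
      have hfin := vec_bound C S' (2 * T) (by positivity) hS' (fun j => v (e j)) hw0 hw1 lam hrow'
      have hW : ((s : ℝ) + 1) / 4 ≤ ∑ j ∈ S', ‖v (e j)‖ ^ 2 := by
        have h1 : ∑ j, ‖v j‖ ^ 2 = ∑ j ∈ S', ‖v (e j)‖ ^ 2 := by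
          rw [← Finset.sum_subset (Finset.subset_univ (S'.map e)), Finset.sum_map]
          intro j _ hj
          rw [hzero j hj]
          simp
        rw [h1, Finset.card_map] at hcard
        have h2 : ((s : ℝ) + 1) ≤ 2 * S'.card := by exact_mod_cast hS'card
        linarith
      have hsq : (5 / 9 * (((s : ℝ) + 1) / 4)) ^ 2 ≤ 2 * T * (m * lam ^ 2) := by
        refine le_trans ?_ hfin
        apply pow_le_pow_left₀ (by positivity)
        linarith
      have hfac : (((s + 1).factorial : ℕ) : ℝ) = (s + 1) * s.factorial := by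
        rw [Nat.factorial_succ]; push_cast; ring
      rw [hfac, pow_succ]
      have hfpos : (0:ℝ) < s.factorial * G.det :=
        mul_pos (Nat.cast_pos.2 (Nat.factorial_pos s)) hdet
      have h3 : (s.factorial : ℝ) * G.det * (5 / 9 * (((s : ℝ) + 1) / 4)) ^ 2 ≤
          2 * (m * lam ^ 2) * ((s + 1) * (2592 / 25 * (m * lam ^ 2)) ^ s) := by
        calc (s.factorial : ℝ) * G.det * (5 / 9 * (((s : ℝ) + 1) / 4)) ^ 2
            ≤ (s.factorial : ℝ) * G.det * (2 * T * (m * lam ^ 2)) :=
              mul_le_mul_of_nonneg_left hsq hfpos.le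
          _ = 2 * (m * lam ^ 2) * ((s.factorial : ℝ) * G.det * T) := by ring
          _ ≤ _ := mul_le_mul_of_nonneg_left hTle (by positivity)
      have hs1 : (0:ℝ) < (s:ℝ) + 1 := by positivity
      have h4 : ((s:ℝ) + 1) * ((s + 1) * s.factorial * G.det) ≤
          ((s:ℝ) + 1) * ((2592 / 25 * (m * lam ^ 2)) ^ s * (2592 / 25 * (m * lam ^ 2))) := by
        nlinarith
      exact le_of_mul_le_mul_left h4 hs1

theorem det_sq_bound {m n : ℕ} (A : Matrix (Fin m) (Fin n) ℝ) (lam : ℝ) (hlam : 0 ≤ lam)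
    (H : ∀ S : Finset (Fin n), Feasible A S lam) (k : ℕ)
    (S : Fin k ↪o Fin m) (T : Fin k ↪o Fin n) :
    |(A.submatrix S T).det| ≤ (17 * lam) ^ k := by
  set B : Matrix (Fin k) (Fin n) ℝ := A.submatrix S id with hB
  have HB : ∀ R : Finset (Fin n), Feasible B R lam := by
    intro R
    obtain ⟨d, v, hrow, hcard, hle, hzero⟩ := H R
    exact ⟨d, v, fun i => hrow (S i), hcard, hle, hzero⟩
  have h1 := det_bound B lam HB k T.toEmbedding
  have h2 : (Bᵀ * B).submatrix T.toEmbedding T.toEmbedding =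
      (A.submatrix S T)ᵀ * (A.submatrix S T) := by
    ext i j
    simp [hB, Matrix.mul_apply]
  rw [h2, Matrix.det_mul, Matrix.det_transpose] at h1
  set D := (A.submatrix S T).det with hD
  have hfac : (0:ℝ) < k.factorial := Nat.cast_pos.2 (Nat.factorial_pos k)
  have h3 : (k:ℝ) ^ k ≤ Real.exp 1 ^ k * k.factorial := by
    have := Real.pow_div_factorial_le_exp (k:ℝ) (Nat.cast_nonneg k) k
    rw [div_le_iff₀ hfac] at this
    rwa [← Real.exp_nat_mul, mul_one]
  have h4 : (k.factorial : ℝ) * D ^ 2 ≤ k.factorial * ((17 * lam) ^ k) ^ 2 := by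
    calc (k.factorial : ℝ) * D ^ 2 = k.factorial * (D * D) := by ring
      _ ≤ (2592 / 25 * (k * lam ^ 2)) ^ k := h1
      _ = (2592 / 25 * lam ^ 2) ^ k * (k:ℝ) ^ k := by rw [← mul_pow]; congr 1; ring
      _ ≤ (2592 / 25 * lam ^ 2) ^ k * (Real.exp 1 ^ k * k.factorial) :=
          mul_le_mul_of_nonneg_left h3 (by positivity)
      _ = k.factorial * (2592 / 25 * Real.exp 1 * lam ^ 2) ^ k := by
          rw [mul_comm (Real.exp 1 ^ k), ← mul_assoc, mul_comm _ ((k.factorial : ℕ) : ℝ),
            mul_assoc, ← mul_pow]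
          congr 2; ring
      _ ≤ k.factorial * ((17 * lam) ^ 2) ^ k := by
          apply mul_le_mul_of_nonneg_left _ hfac.le
          apply pow_le_pow_left₀ (by positivity)
          have := Real.exp_one_lt_d9
          have hl : 0 ≤ lam ^ 2 := by positivity
          nlinarith
      _ = k.factorial * ((17 * lam) ^ k) ^ 2 := by rw [← pow_mul, ← pow_mul, mul_comm 2 k]
  have h5 : D ^ 2 ≤ ((17 * lam) ^ k) ^ 2 := le_of_mul_le_mul_left h4 hfac
  exact abs_le_of_sq_le_sq h5 (by positivity)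

/-- Some `lam` is feasible for every set of columns. -/
theorem feasible_nonempty {m n : ℕ} (A : Matrix (Fin m) (Fin n) ℝ) :
    {lam : ℝ | 0 ≤ lam ∧ ∀ S : Finset (Fin n), Feasible A S lam}.Nonempty := by
  classical
  refine ⟨∑ i, ∑ j, |A i j|, Finset.sum_nonneg fun i _ => Finset.sum_nonneg fun j _ =>
    abs_nonneg _, fun S => ?_⟩
  set w : EuclideanSpace ℝ (Fin 1) := EuclideanSpace.single 0 1 with hw
  have hw1 : ‖w‖ = 1 := by rw [hw]; simp
  refine ⟨1, fun j => if j ∈ S then w else 0, ?_, ?_, ?_, ?_⟩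
  · intro i
    apply pow_le_pow_left₀ (norm_nonneg _)
    calc ‖∑ j ∈ S, A i j • (if j ∈ S then w else 0)‖
        ≤ ∑ j ∈ S, ‖A i j • (if j ∈ S then w else 0)‖ := norm_sum_le _ _
      _ ≤ ∑ j ∈ S, |A i j| := by
          refine Finset.sum_le_sum fun j hj => ?_
          rw [if_pos hj, norm_smul, hw1, mul_one, Real.norm_eq_abs]
      _ ≤ ∑ j, |A i j| := Finset.sum_le_univ_sum_of_nonneg fun j => abs_nonneg _
      _ ≤ ∑ i, ∑ j, |A i j| :=
          Finset.single_le_sum (f := fun i => ∑ j, |A i j|)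
            (fun i _ => Finset.sum_nonneg fun j _ => abs_nonneg _) (Finset.mem_univ i)
  · have h1 : ∑ j, ‖(if j ∈ S then w else 0)‖ ^ 2 = (S.card : ℝ) := by
      have : ∀ j, ‖(if j ∈ S then w else 0)‖ ^ 2 = if j ∈ S then (1:ℝ) else 0 := by
        intro j
        split_ifs
        · rw [hw1]; norm_num
        · simp
      simp [this]
    rw [h1]
    have : (0:ℝ) ≤ S.card := Nat.cast_nonneg _
    linarith
  · intro j hj
    simp only [if_pos hj, hw1]
    norm_num
  · intro j hj
    simp only [if_neg hj]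

/-- **The determinant lower bound is at most an absolute constant times the hereditary partial
vector discrepancy.** -/
theorem main : ∀ (m n : ℕ) (A : Matrix (Fin m) (Fin n) ℝ), detLB A ≤ 17 * herpvdisc A := by
  intro m n A
  have hne := feasible_nonempty A
  have key : ∀ lam ∈ {lam : ℝ | 0 ≤ lam ∧ ∀ S : Finset (Fin n), Feasible A S lam},
      detLB A / 17 ≤ lam := by
    rintro lam ⟨hlam, H⟩
    rw [div_le_iff₀ (by norm_num)]
    apply Real.sSup_le
    · rintro x ⟨k, hk, S, T, rfl⟩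
      have h1 := det_sq_bound A lam hlam H k S T
      have hk0 : (k:ℝ) ≠ 0 := by
        have : 0 < k := hk
        positivity
      calc |(A.submatrix S T).det| ^ (1 / (k:ℝ)) ≤ ((17 * lam) ^ k) ^ (1 / (k:ℝ)) :=
            Real.rpow_le_rpow (abs_nonneg _) h1 (by positivity)
        _ = 17 * lam := by
            rw [← Real.rpow_natCast, ← Real.rpow_mul (by positivity), mul_one_div_cancel hk0,
              Real.rpow_one]
        _ = lam * 17 := by ring
    · positivity
  have h2 : detLB A / 17 ≤ herpvdisc A := le_csInf hne key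
  rw [div_le_iff₀ (by norm_num)] at h2
  linarith

end Pool.Agent.Helper83.DetLB
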