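import Mathlib

open MeasureTheory Set Metric
open scoped ENNReal ContDiff Topology

namespace Pool.Agent.Helper83.OT

/-- `π` is a coupling of `μ` and `ν`. -/
def IsCoupling {E : Type*} [MeasurableSpace E] (μ ν : Measure E) (π : Measure (E × E)) : Prop :=
  π.map Prod.fst = μ ∧ π.map Prod.snd = ν

/-- The transport cost for the distance. -/
noncomputable def cost {E : Type*} [MeasurableSpace E] [PseudoEMetricSpace E]
    (π : Measure (E × E)) : ℝ≥0∞ :=
  ∫⁻ p, edist p.1 p.2 ∂π

/-- `π` is an optimal coupling of `μ` and `ν` for the distance cost. -/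
def IsOptimal {E : Type*} [MeasurableSpace E] [PseudoEMetricSpace E] (μ ν : Measure E)
    (π : Measure (E × E)) : Prop :=
  IsCoupling μ ν π ∧ ∀ π' : Measure (E × E), IsCoupling μ ν π' → cost π ≤ cost π'

/-- The measure with density `h` with respect to Lebesgue measure. -/
noncomputable def dens {E : Type*} [MeasureSpace E] (h : E → ℝ) : Measure E :=
  volume.withDensity fun x => ENNReal.ofReal (h x)

end Pool.Agent.Helper83.OT
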