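import Mathlib
import Pool.Agent.Helper83.OTDefs

open MeasureTheory Set Metric
open scoped ENNReal ContDiff Topology

namespace Pool.Agent.Helper83.OT

/-! ### Step 1: a nowhere dense closed set of positive measure and disjoint open sets that all
accumulate on it -/

theorem exists_fat (n : ℕ) : ∃ Z : Set (Fin (n + 1) → ℝ), IsClosed Z ∧ Z ⊆ closedBall 0 1 ∧
    interior Z = ∅ ∧ 0 < volume Z := by
  set Y := Fin (n + 1) → ℝ
  obtain ⟨D, hDc, hDd⟩ := TopologicalSpace.exists_countable_dense Y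
  have hD0 : volume D = 0 := hDc.measure_zero _
  have hpos : 0 < volume (closedBall (0 : Y) 1) := measure_closedBall_pos _ _ one_pos
  obtain ⟨U, hDU, hUo, hU⟩ := Set.exists_isOpen_lt_of_lt D _ (hD0 ▸ hpos)
  refine ⟨closedBall 0 1 \ U, isClosed_closedBall.sdiff hUo, sdiff_subset, ?_, ?_⟩
  · rw [interior_eq_empty_iff_dense_compl]
    exact hDd.mono fun x hx => by simp [hDU hx]
  · have h1 : volume (closedBall (0 : Y) 1) ≤ volume (closedBall (0 : Y) 1 \ U) + volume U := by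
      rw [← measure_union_add_inter (closedBall (0:Y) 1 \ U) hUo.measurableSet]
      refine le_trans (measure_mono ?_) le_self_add
      intro x hx
      by_cases h : x ∈ U
      · exact Or.inr h
      · exact Or.inl ⟨hx, h⟩
    by_contra hcon
    push Not at hcon
    have h0 : volume (closedBall (0 : Y) 1 \ U) = 0 := le_antisymm hcon zero_le
    rw [h0, zero_add] at h1
    exact absurd hU (not_lt.2 h1)

/-- Disjoint open subsets of the line that accumulate at `0`. -/
def Oset (k : ℕ) : Set ℝ := ⋃ j : ℕ, Ioo (1 / ((Nat.pair k j : ℝ) + 2)) (1 / ((Nat.pair k j : ℝ) + 1))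

theorem isOpen_Oset (k : ℕ) : IsOpen (Oset k) := isOpen_iUnion fun _ => isOpen_Ioo

theorem mem_Ioo_unique {a b : ℕ} {v : ℝ} (ha : v ∈ Ioo (1 / ((a : ℝ) + 2)) (1 / ((a : ℝ) + 1)))
    (hb : v ∈ Ioo (1 / ((b : ℝ) + 2)) (1 / ((b : ℝ) + 1))) : a = b := by
  have key : ∀ a b : ℕ, v ∈ Ioo (1 / ((a : ℝ) + 2)) (1 / ((a : ℝ) + 1)) →
      v ∈ Ioo (1 / ((b : ℝ) + 2)) (1 / ((b : ℝ) + 1)) → ¬ a < b := by
    intro a b ha hb hab
    have h1 : (a : ℝ) + 1 ≤ b := by exact_mod_cast hab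
    have h2 : 1 / ((b : ℝ) + 1) ≤ 1 / ((a : ℝ) + 2) :=
      one_div_le_one_div_of_le (by positivity) (by linarith)
    have := ha.1
    have := hb.2
    linarith
  rcases lt_trichotomy a b with h | h | h
  · exact absurd h (key a b ha hb)
  · exact h
  · exact absurd h (key b a hb ha)

theorem Oset_unique {k l : ℕ} {v : ℝ} (hk : v ∈ Oset k) (hl : v ∈ Oset l) : k = l := by
  simp only [Oset, mem_iUnion] at hk hl
  obtain ⟨i, hi⟩ := hk
  obtain ⟨j, hj⟩ := hl
  have h := mem_Ioo_unique hi hj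
  have := Nat.pair_eq_pair.1 h
  exact this.1

theorem exists_mem_Oset (k : ℕ) {d : ℝ} (hd : 0 < d) : ∃ v ∈ Oset k, 0 < v ∧ v < d := by
  obtain ⟨j, hj⟩ := exists_nat_one_div_lt hd
  have h1 : (j : ℝ) ≤ (Nat.pair k j : ℝ) := by exact_mod_cast Nat.right_le_pair k j
  have hp : (0:ℝ) ≤ (Nat.pair k j : ℝ) := Nat.cast_nonneg _
  have hlt : 1 / ((Nat.pair k j : ℝ) + 2) < 1 / ((Nat.pair k j : ℝ) + 1) :=
    one_div_lt_one_div_of_lt (by positivity) (by linarith)
  obtain ⟨v, hv1, hv2⟩ := exists_between hlt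
  refine ⟨v, mem_iUnion.2 ⟨j, hv1, hv2⟩, lt_trans (by positivity) hv1, ?_⟩
  have h2 : 1 / ((Nat.pair k j : ℝ) + 1) ≤ 1 / ((j : ℝ) + 1) :=
    one_div_le_one_div_of_le (by positivity) (by linarith)
  linarith

/-- The disjoint open sets accumulating on `Z`. -/
def Wset {n : ℕ} (Z : Set (Fin (n + 1) → ℝ)) (k : ℕ) : Set (Fin (n + 1) → ℝ) :=
  {y | infDist y Z ∈ Oset k}

theorem isOpen_Wset {n : ℕ} (Z : Set (Fin (n + 1) → ℝ)) (k : ℕ) : IsOpen (Wset Z k) :=
  (isOpen_Oset k).preimage (continuous_infDist_pt Z)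

theorem Wset_unique {n : ℕ} {Z : Set (Fin (n + 1) → ℝ)} {k l : ℕ} {y : Fin (n + 1) → ℝ}
    (hk : y ∈ Wset Z k) (hl : y ∈ Wset Z l) : k = l := Oset_unique hk hl

theorem Wset_accum {n : ℕ} {Z : Set (Fin (n + 1) → ℝ)} (hZc : IsClosed Z)
    (hZi : interior Z = ∅) {z : Fin (n + 1) → ℝ} (hz : z ∈ Z) (k : ℕ) {δ : ℝ} (hδ : 0 < δ) :
    ∃ y ∈ Wset Z k, dist y z < δ := by
  have hne : Z.Nonempty := ⟨z, hz⟩
  obtain ⟨x, hx, hxZ⟩ : ∃ x, dist x z < δ ∧ x ∉ Z := by
    by_contra hcon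
    push Not at hcon
    have : z ∈ interior Z := mem_interior.2 ⟨ball z δ, fun x hx => hcon x hx, isOpen_ball,
      mem_ball_self hδ⟩
    rw [hZi] at this
    exact this
  have hd : 0 < infDist x Z := (hZc.notMem_iff_infDist_pos hne).1 hxZ
  obtain ⟨v, hvO, hv0, hvd⟩ := exists_mem_Oset k hd
  set h : ℝ → ℝ := fun t => infDist (AffineMap.lineMap z x t) Z with hh
  have hcont : ContinuousOn h (Icc 0 1) := by
    apply Continuous.continuousOn
    exact (continuous_infDist_pt Z).comp AffineMap.lineMap_continuous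
  have h0 : h 0 = 0 := by simp [hh, infDist_zero_of_mem hz]
  have h1 : h 1 = infDist x Z := by simp [hh]
  have hmem : v ∈ Icc (h 0) (h 1) := by rw [h0, h1]; exact ⟨hv0.le, hvd.le⟩
  obtain ⟨t, ht, htv⟩ := intermediate_value_Icc zero_le_one hcont hmem
  refine ⟨AffineMap.lineMap z x t, ?_, ?_⟩
  · show infDist _ Z ∈ Oset k
    have : infDist (AffineMap.lineMap z x t) Z = v := htv
    rw [this]; exact hvO
  · rw [dist_lineMap_left, dist_comm z x, Real.norm_eq_abs, abs_of_nonneg ht.1]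
    calc t * dist x z ≤ 1 * dist x z := mul_le_mul_of_nonneg_right ht.2 dist_nonneg
      _ < δ := by rw [one_mul]; exact hx

/-- Small open intervals accumulating everywhere. -/
noncomputable def Iset (k : ℕ) : Set ℝ :=
  ball (TopologicalSpace.denseSeq ℝ (Nat.unpair k).1) (1 / (((Nat.unpair k).2 : ℝ) + 1)) ∩
    Ioo (-2) 2

theorem isOpen_Iset (k : ℕ) : IsOpen (Iset k) := isOpen_ball.inter isOpen_Ioo

theorem exists_Iset {a δ : ℝ} (ha : a ∈ Icc (-1:ℝ) 1) (hδ : 0 < δ) :
    ∃ k, a ∈ Iset k ∧ ∀ t ∈ Iset k, dist t a < δ := by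
  obtain ⟨j, hj⟩ := exists_nat_one_div_lt (half_pos hδ)
  have hjp : (0:ℝ) < 1 / ((j:ℝ) + 1) := by positivity
  obtain ⟨i, hi⟩ := (TopologicalSpace.denseRange_denseSeq ℝ).exists_dist_lt a hjp
  refine ⟨Nat.pair i j, ⟨?_, ?_, ?_⟩, ?_⟩
  · simp only [Nat.unpair_pair, mem_ball]; exact hi
  · linarith [ha.1]
  · linarith [ha.2]
  · rintro t ⟨ht, -⟩
    simp only [Nat.unpair_pair, mem_ball] at ht
    calc dist t a ≤ dist t (TopologicalSpace.denseSeq ℝ i) +
          dist (TopologicalSpace.denseSeq ℝ i) a := dist_triangle _ _ _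
      _ < 1 / ((j:ℝ) + 1) + 1 / ((j:ℝ) + 1) := by
          apply add_lt_add ht; rw [dist_comm]; exact hi
      _ < δ := by linarith

/-! ### Step 2: coordinates -/

/-- All coordinates but the first. -/
def tail {n : ℕ} (x : EuclideanSpace ℝ (Fin (n + 2))) : Fin (n + 1) → ℝ := fun i => x i.succ

/-- The point with first coordinate `t` and remaining coordinates `y`. -/
noncomputable def pt {n : ℕ} (t : ℝ) (y : Fin (n + 1) → ℝ) : EuclideanSpace ℝ (Fin (n + 2)) :=
  WithLp.toLp 2 (Fin.cons t y)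

@[simp] theorem pt_zero {n : ℕ} (t : ℝ) (y : Fin (n + 1) → ℝ) : pt t y 0 = t := rfl

@[simp] theorem tail_pt {n : ℕ} (t : ℝ) (y : Fin (n + 1) → ℝ) : tail (pt t y) = y := rfl

@[simp] theorem pt_tail {n : ℕ} (x : EuclideanSpace ℝ (Fin (n + 2))) : pt (x 0) (tail x) = x := by
  ext i
  refine Fin.cases ?_ (fun j => ?_) i <;> rfl

theorem contDiff_tail {n : ℕ} : ContDiff ℝ ∞ (tail (n := n)) := by
  rw [contDiff_pi]
  intro i
  exact contDiff_piLp_apply 2

theorem continuous_tail {n : ℕ} : Continuous (tail (n := n)) := contDiff_tail.continuous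

theorem contDiff_pt {n : ℕ} :
    ContDiff ℝ ∞ (fun p : ℝ × (Fin (n + 1) → ℝ) => pt (n := n) p.1 p.2) := by
  rw [contDiff_piLp 2]
  intro i
  refine Fin.cases ?_ (fun j => ?_) i
  · exact contDiff_fst
  · exact (contDiff_apply ℝ ℝ j).comp contDiff_snd

theorem continuous_pt {n : ℕ} :
    Continuous (fun p : ℝ × (Fin (n + 1) → ℝ) => pt (n := n) p.1 p.2) := contDiff_pt.continuous

/-- The measurable equivalence `x ↦ (x 0, tail x)`. -/
noncomputable def eqv (n : ℕ) : EuclideanSpace ℝ (Fin (n + 2)) ≃ᵐ ℝ × (Fin (n + 1) → ℝ) :=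
  (MeasurableEquiv.toLp 2 (Fin (n + 2) → ℝ)).symm.trans
    (MeasurableEquiv.piFinSuccAbove (fun _ => ℝ) 0)

theorem eqv_apply {n : ℕ} (x : EuclideanSpace ℝ (Fin (n + 2))) : eqv n x = (x 0, tail x) := by
  rfl

theorem eqv_symm_apply {n : ℕ} (p : ℝ × (Fin (n + 1) → ℝ)) : (eqv n).symm p = pt p.1 p.2 := by
  rw [MeasurableEquiv.symm_apply_eq, eqv_apply]
  simp

theorem measurePreserving_eqv (n : ℕ) : MeasurePreserving (eqv n) volume volume :=
  (EuclideanSpace.volume_preserving_symm_measurableEquiv_toLp _).trans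
    (volume_preserving_piFinSuccAbove (fun _ => ℝ) 0)

theorem lintegral_eq {n : ℕ} (H : EuclideanSpace ℝ (Fin (n + 2)) → ℝ≥0∞) (hH : Measurable H) :
    ∫⁻ x, H x = ∫⁻ y : Fin (n + 1) → ℝ, ∫⁻ t : ℝ, H (pt t y) := by
  have h1 := (measurePreserving_eqv n).symm.lintegral_comp hH
  rw [← h1]
  have h2 : ∀ p : ℝ × (Fin (n + 1) → ℝ), H ((eqv n).symm p) = H (pt p.1 p.2) := by
    intro p; rw [eqv_symm_apply]
  simp_rw [h2]
  rw [Measure.volume_eq_prod, lintegral_prod_symm]
  exact (hH.comp continuous_pt.measurable).aemeasurable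

/-- The fibre mass of `f`. -/
noncomputable def fib {n : ℕ} (f : EuclideanSpace ℝ (Fin (n + 2)) → ℝ) (y : Fin (n + 1) → ℝ) : ℝ :=
  ∫ t : ℝ, f (pt t y)

theorem contDiff_fib {n : ℕ} {f : EuclideanSpace ℝ (Fin (n + 2)) → ℝ} (hf : ContDiff ℝ ∞ f)
    (hsupp : ∀ x, f x ≠ 0 → x 0 ∈ Icc (-2:ℝ) 2) : ContDiff ℝ ∞ (fib f) := by
  have h := contDiffOn_convolution_left_with_param_comp (𝕜 := ℝ) (G := ℝ) (μ := volume)
    (ContinuousLinearMap.mul ℝ ℝ) (s := (univ : Set (Fin (n + 1) → ℝ))) (n := ⊤)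
    (v := fun _ => (0:ℝ)) contDiffOn_const (f := fun _ : ℝ => (1:ℝ))
    (g := fun y t => f (pt t y)) (k := Icc (-2:ℝ) 2) isOpen_univ isCompact_Icc
    (fun y t _ ht => by
      by_contra hne
      exact ht (hsupp _ hne)) (locallyIntegrable_const 1)
    ((hf.comp (contDiff_pt.comp (contDiff_snd.prodMk contDiff_fst))).contDiffOn)
  rw [contDiffOn_univ] at h
  have he : fib f = fun y => convolution (fun t => f (pt t y)) (fun _ : ℝ => (1:ℝ))
      (ContinuousLinearMap.mul ℝ ℝ) volume 0 := by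
    funext y
    simp [convolution, fib]
  rw [he]
  exact h


/-! ### Step 3: couplings -/

theorem ofReal_fib {n : ℕ} {f : EuclideanSpace ℝ (Fin (n + 2)) → ℝ} (hf : Continuous f)
    (hsupp : ∀ x, f x ≠ 0 → x 0 ∈ Icc (-2:ℝ) 2) (hnn : ∀ x, 0 ≤ f x) (y : Fin (n + 1) → ℝ) :
    ENNReal.ofReal (fib f y) = ∫⁻ t : ℝ, ENNReal.ofReal (f (pt t y)) := by
  have hcont : Continuous (fun t : ℝ => f (pt t y)) :=
    hf.comp (continuous_pt.comp (continuous_id.prodMk continuous_const))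
  rw [fib, ofReal_integral_eq_lintegral_ofReal]
  · apply hcont.integrable_of_hasCompactSupport
    apply HasCompactSupport.intro (isCompact_Icc (a := (-2:ℝ)) (b := 2))
    intro t ht
    by_contra hne
    exact ht (hsupp _ hne)
  · exact Filter.Eventually.of_forall fun t => hnn _

theorem ae_dens {E : Type*} [MeasureSpace E] {h : E → ℝ} (hm : Measurable h) :
    ∀ᵐ x ∂(dens h), h x ≠ 0 := by
  rw [dens, ae_withDensity_iff hm.ennreal_ofReal]
  refine Filter.Eventually.of_forall fun x hx h0 => hx ?_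
  rw [h0, ENNReal.ofReal_zero]

theorem isProbabilityMeasure_dens {E : Type*} [MeasureSpace E] {h : E → ℝ} 
    (hi : Integrable h) (hnn : ∀ x, 0 ≤ h x) (h1 : ∫ x, h x = 1) :
    IsProbabilityMeasure (dens h) := by
  constructor
  rw [dens, withDensity_apply _ MeasurableSet.univ, Measure.restrict_univ,
    ← ofReal_integral_eq_lintegral_ofReal hi (Filter.Eventually.of_forall hnn), h1,
    ENNReal.ofReal_one]

/-- All the data of the construction. -/
structure Data (n : ℕ) where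
  Z : Set (Fin (n + 1) → ℝ)
  hZc : IsClosed Z
  hZb : Z ⊆ closedBall 0 1
  hZi : interior Z = ∅
  hZv : 0 < volume Z
  f : EuclideanSpace ℝ (Fin (n + 2)) → ℝ
  hf : ContDiff ℝ ∞ f
  hfc : HasCompactSupport f
  hfnn : ∀ x, 0 ≤ f x
  hf1 : ∫ x, f x = 1
  hfs : ∀ x, f x ≠ 0 ↔ ∃ k, x 0 ∈ Iset k ∧ tail x ∈ Wset Z k ∧ ‖tail x‖ < 2
  χ : ℝ → ℝ
  hχ : ContDiff ℝ ∞ χ
  hχnn : ∀ t, 0 ≤ χ t
  hχ1 : ∫ t, χ t = 1
  hχs : ∀ t, χ t ≠ 0 ↔ t ∈ Ioo (3:ℝ) 5

namespace Data

variable {n : ℕ} (D : Data n)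

/-- The second density. -/
noncomputable def g (x : EuclideanSpace ℝ (Fin (n + 2))) : ℝ := D.χ (x 0) * fib D.f (tail x)

theorem f_fst {x : EuclideanSpace ℝ (Fin (n + 2))} (hx : D.f x ≠ 0) : x 0 ∈ Ioo (-2:ℝ) 2 := by
  obtain ⟨k, hk, -, -⟩ := (D.hfs x).1 hx
  exact hk.2

theorem f_fst' {x : EuclideanSpace ℝ (Fin (n + 2))} (hx : D.f x ≠ 0) : x 0 ∈ Icc (-2:ℝ) 2 :=
  Ioo_subset_Icc_self (D.f_fst hx)

theorem contDiff_fibf : ContDiff ℝ ∞ (fib D.f) := contDiff_fib D.hf fun _ hx => D.f_fst' hx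

theorem fib_nonneg (y : Fin (n + 1) → ℝ) : 0 ≤ fib D.f y := integral_nonneg fun _ => D.hfnn _

theorem fib_ne_zero {y : Fin (n + 1) → ℝ} (hy : fib D.f y ≠ 0) : ‖y‖ < 2 := by
  by_contra hcon
  apply hy
  rw [fib]
  have : ∀ t : ℝ, D.f (pt t y) = 0 := by
    intro t
    by_contra hne
    obtain ⟨k, -, -, hk⟩ := (D.hfs _).1 hne
    exact hcon (by simpa using hk)
  simp [this]

theorem hg : ContDiff ℝ ∞ D.g := by
  apply ContDiff.mul
  · exact D.hχ.comp (contDiff_piLp_apply 2)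
  · exact D.contDiff_fibf.comp contDiff_tail

theorem hgnn (x : EuclideanSpace ℝ (Fin (n + 2))) : 0 ≤ D.g x :=
  mul_nonneg (D.hχnn _) (D.fib_nonneg _)

theorem g_fst {x : EuclideanSpace ℝ (Fin (n + 2))} (hx : D.g x ≠ 0) : x 0 ∈ Ioo (3:ℝ) 5 :=
  (D.hχs _).1 (left_ne_zero_of_mul hx)

theorem norm_le_of (x : EuclideanSpace ℝ (Fin (n + 2))) (h0 : |x 0| ≤ 5) (h1 : ‖tail x‖ ≤ 5) :
    ‖x‖ ≤ 5 * (n + 2) := by
  have h2 : ‖x‖ ^ 2 ≤ (5 * ((n:ℝ) + 2)) ^ 2 := by
    rw [EuclideanSpace.norm_sq_eq]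
    have h3 : ∀ i : Fin (n + 2), ‖x i‖ ^ 2 ≤ 25 := by
      intro i
      have : ‖x i‖ ≤ 5 := by
        refine Fin.cases ?_ (fun j => ?_) i
        · exact h0
        · exact (norm_le_pi_norm (tail x) j).trans h1
      nlinarith [norm_nonneg (x i)]
    calc ∑ i, ‖x i‖ ^ 2 ≤ ∑ _i : Fin (n + 2), (25:ℝ) := Finset.sum_le_sum fun i _ => h3 i
      _ = 25 * (n + 2) := by simp; ring
      _ ≤ (5 * ((n:ℝ) + 2)) ^ 2 := by nlinarith [(Nat.cast_nonneg n : (0:ℝ) ≤ n)]
  exact le_of_sq_le_sq h2 (by positivity)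

theorem hgc : HasCompactSupport D.g := by
  apply HasCompactSupport.intro (isCompact_closedBall (0 : EuclideanSpace ℝ (Fin (n + 2)))
    (5 * (n + 2)))
  intro x hx
  by_contra hne
  apply hx
  rw [mem_closedBall_zero_iff]
  apply norm_le_of
  · have := D.g_fst hne
    rw [abs_le]; constructor <;> linarith [this.1, this.2]
  · have := D.fib_ne_zero (right_ne_zero_of_mul hne)
    linarith

theorem f_norm {x : EuclideanSpace ℝ (Fin (n + 2))} (hx : D.f x ≠ 0) : ‖x‖ ≤ 5 * (n + 2) := by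
  apply norm_le_of
  · have := D.f_fst hx
    rw [abs_le]; constructor <;> linarith [this.1, this.2]
  · obtain ⟨k, -, -, hk⟩ := (D.hfs _).1 hx
    linarith

theorem g_norm {x : EuclideanSpace ℝ (Fin (n + 2))} (hx : D.g x ≠ 0) : ‖x‖ ≤ 5 * (n + 2) := by
  apply norm_le_of
  · have := D.g_fst hx
    rw [abs_le]; constructor <;> linarith [this.1, this.2]
  · have := D.fib_ne_zero (right_ne_zero_of_mul hx)
    linarith

/-- The key fibration identity. -/
theorem lintegral_dens_g (K : EuclideanSpace ℝ (Fin (n + 2)) → ℝ≥0∞) (hK : Measurable K) :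
    ∫⁻ x, K x ∂(dens D.g) = ∫⁻ x, ∫⁻ b, K (pt b (tail x)) ∂(dens D.χ) ∂(dens D.f) := by
  have hmχ : Measurable fun t => ENNReal.ofReal (D.χ t) := D.hχ.continuous.measurable.ennreal_ofReal
  have hmf : Measurable fun x => ENNReal.ofReal (D.f x) := D.hf.continuous.measurable.ennreal_ofReal
  have hmg : Measurable fun x => ENNReal.ofReal (D.g x) := D.hg.continuous.measurable.ennreal_ofReal
  have hmk : Measurable (fun p : ℝ × (Fin (n + 1) → ℝ) => pt (n := n) p.1 p.2) :=
    continuous_pt.measurable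
  -- inner function
  set J : (Fin (n + 1) → ℝ) → ℝ≥0∞ := fun y => ∫⁻ b : ℝ, ENNReal.ofReal (D.χ b) * K (pt b y)
    with hJ
  have hJm : Measurable J := by
    apply Measurable.lintegral_prod_right' (f := fun p : (Fin (n + 1) → ℝ) × ℝ =>
      ENNReal.ofReal (D.χ p.2) * K (pt p.2 p.1))
    exact (hmχ.comp measurable_snd).mul (hK.comp (hmk.comp measurable_swap))
  have hin : ∀ y : Fin (n + 1) → ℝ, ∫⁻ b, K (pt b y) ∂(dens D.χ) = J y := by
    intro y
    rw [dens, lintegral_withDensity_eq_lintegral_mul _ hmχ]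
    · rfl
    · exact hK.comp (hmk.comp (measurable_id.prodMk measurable_const))
  simp_rw [hin]
  have hJt : Measurable fun x : EuclideanSpace ℝ (Fin (n + 2)) => J (tail x) :=
    hJm.comp continuous_tail.measurable
  rw [dens, dens, lintegral_withDensity_eq_lintegral_mul _ hmg hK,
    lintegral_withDensity_eq_lintegral_mul _ hmf hJt]
  rw [lintegral_eq _ (hmg.mul hK), lintegral_eq _ (hmf.mul hJt)]
  refine lintegral_congr fun y => ?_
  simp only [Pi.mul_apply, tail_pt]
  have hmft : Measurable fun t : ℝ => ENNReal.ofReal (D.f (pt t y)) :=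
    hmf.comp (hmk.comp (measurable_id.prodMk measurable_const))
  rw [lintegral_mul_const _ hmft,
    ← ofReal_fib D.hf.continuous (fun _ hx => D.f_fst' hx) D.hfnn, hJ]
  simp only
  rw [← lintegral_const_mul]
  · refine lintegral_congr fun t => ?_
    simp only [g, pt_zero, tail_pt]
    rw [ENNReal.ofReal_mul (D.hχnn _)]
    ring
  · exact hmχ.mul (hK.comp (hmk.comp (measurable_id.prodMk measurable_const)))

theorem integral_g : ∫ x, D.g x = 1 := by
  have h1 : ENNReal.ofReal (∫ x, D.g x) = 1 := by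
    rw [ofReal_integral_eq_lintegral_ofReal (D.hg.continuous.integrable_of_hasCompactSupport D.hgc)
      (Filter.Eventually.of_forall D.hgnn)]
    have h2 := D.lintegral_dens_g (fun _ => 1) measurable_const
    have hf' : IsProbabilityMeasure (dens D.f) := isProbabilityMeasure_dens
      (D.hf.continuous.integrable_of_hasCompactSupport D.hfc) D.hfnn D.hf1
    have hχc : HasCompactSupport D.χ := by
      apply HasCompactSupport.intro (isCompact_Icc (a := (3:ℝ)) (b := 5))
      intro t ht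
      by_contra hne
      exact ht (Ioo_subset_Icc_self ((D.hχs t).1 hne))
    have hχ' : IsProbabilityMeasure (dens D.χ) := isProbabilityMeasure_dens
      (D.hχ.continuous.integrable_of_hasCompactSupport hχc) D.hχnn D.hχ1
    simp only [lintegral_const, measure_univ, mul_one] at h2
    rw [one_mul, dens, withDensity_apply _ MeasurableSet.univ, Measure.restrict_univ] at h2
    exact h2
  have h3 : 0 ≤ ∫ x, D.g x := integral_nonneg D.hgnn
  rw [← ENNReal.ofReal_one, ENNReal.ofReal_eq_ofReal_iff h3 zero_le_one] at h1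
  exact h1

theorem prob_f : IsProbabilityMeasure (dens D.f) := isProbabilityMeasure_dens
      (D.hf.continuous.integrable_of_hasCompactSupport D.hfc) D.hfnn D.hf1

theorem prob_g : IsProbabilityMeasure (dens D.g) := isProbabilityMeasure_dens
      (D.hg.continuous.integrable_of_hasCompactSupport D.hgc) D.hgnn D.integral_g

theorem prob_χ : IsProbabilityMeasure (dens D.χ) := by
  have hχc : HasCompactSupport D.χ := by
    apply HasCompactSupport.intro (isCompact_Icc (a := (3:ℝ)) (b := 5))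
    intro t ht
    by_contra hne
    exact ht (Ioo_subset_Icc_self ((D.hχs t).1 hne))
  exact isProbabilityMeasure_dens
    (D.hχ.continuous.integrable_of_hasCompactSupport hχc) D.hχnn D.hχ1

/-- The coupling along lines parallel to the first axis. -/
noncomputable def π₀ : Measure (EuclideanSpace ℝ (Fin (n + 2)) × EuclideanSpace ℝ (Fin (n + 2))) :=
  ((dens D.f).prod (dens D.χ)).map (fun p => (p.1, pt p.2 (tail p.1)))

theorem measurable_aux : Measurable (fun p : EuclideanSpace ℝ (Fin (n + 2)) × ℝ =>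
    (p.1, pt p.2 (tail p.1))) := by
  apply Continuous.measurable
  exact continuous_fst.prodMk (continuous_pt.comp
    (continuous_snd.prodMk (continuous_tail.comp continuous_fst)))

theorem isCoupling_π₀ : IsCoupling (dens D.f) (dens D.g) D.π₀ := by
  have := D.prob_f
  have := D.prob_χ
  constructor
  · rw [π₀, Measure.map_map measurable_fst measurable_aux]
    have : (Prod.fst ∘ fun p : EuclideanSpace ℝ (Fin (n + 2)) × ℝ => (p.1, pt p.2 (tail p.1))) =
        Prod.fst := rfl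
    rw [this]
    exact Measure.fst_prod
  · rw [π₀, Measure.map_map measurable_snd measurable_aux]
    apply Measure.ext_of_lintegral
    intro K hK
    rw [lintegral_map hK (measurable_snd.comp measurable_aux), D.lintegral_dens_g K hK,
      lintegral_prod]
    · rfl
    · exact (hK.comp (measurable_snd.comp measurable_aux)).aemeasurable

/-! #### Optimality forces transport along the first axis -/

theorem dist_sq_eq (x y : EuclideanSpace ℝ (Fin (n + 2))) :
    dist x y ^ 2 = (y 0 - x 0) ^ 2 + ∑ i, (tail x i - tail y i) ^ 2 := by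
  rw [EuclideanSpace.dist_eq, Real.sq_sqrt (Finset.sum_nonneg fun i _ => sq_nonneg _),
    Fin.sum_univ_succ]
  simp only [Real.dist_eq, sq_abs, tail]
  ring

theorem le_dist (x y : EuclideanSpace ℝ (Fin (n + 2))) : y 0 - x 0 ≤ dist x y := by
  have h := dist_sq_eq x y
  have h2 : 0 ≤ ∑ i, (tail x i - tail y i) ^ 2 := Finset.sum_nonneg fun i _ => sq_nonneg _
  have h3 : (y 0 - x 0) ^ 2 ≤ dist x y ^ 2 := by linarith
  exact (le_abs_self _).trans (abs_le_of_sq_le_sq h3 dist_nonneg)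

theorem tail_eq_of_dist {x y : EuclideanSpace ℝ (Fin (n + 2))} (h : dist x y = y 0 - x 0) :
    tail x = tail y := by
  have h1 := dist_sq_eq x y
  rw [h] at h1
  have h2 : ∑ i, (tail x i - tail y i) ^ 2 = 0 := by linarith
  rw [Finset.sum_eq_zero_iff_of_nonneg fun i _ => sq_nonneg _] at h2
  funext i
  have := h2 i (Finset.mem_univ i)
  have := pow_eq_zero_iff (two_ne_zero) |>.1 this
  linarith

theorem dist_of_tail_eq {x y : EuclideanSpace ℝ (Fin (n + 2))} (h : tail x = tail y)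
    (h0 : x 0 ≤ y 0) : dist x y = y 0 - x 0 := by
  have h1 := dist_sq_eq x y
  simp only [h, sub_self] at h1
  have h2 : dist x y ^ 2 = (y 0 - x 0) ^ 2 := by simpa using h1
  exact (pow_left_inj₀ dist_nonneg (by linarith) two_ne_zero).1 h2

variable {D}
variable {π : Measure (EuclideanSpace ℝ (Fin (n + 2)) × EuclideanSpace ℝ (Fin (n + 2)))}

theorem prob_of_coupling (hπ : IsCoupling (dens D.f) (dens D.g) π) : IsProbabilityMeasure π := by
  have := D.prob_f
  constructor
  have : (π.map Prod.fst) univ = 1 := by rw [hπ.1]; exact measure_univ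
  rwa [Measure.map_apply measurable_fst MeasurableSet.univ] at this

theorem ae_f_ne (hπ : IsCoupling (dens D.f) (dens D.g) π) : ∀ᵐ p ∂π, D.f p.1 ≠ 0 := by
  have h := ae_dens D.hf.continuous.measurable
  rw [← hπ.1] at h
  exact ae_of_ae_map measurable_fst.aemeasurable h

theorem ae_g_ne (hπ : IsCoupling (dens D.f) (dens D.g) π) : ∀ᵐ p ∂π, D.g p.2 ≠ 0 := by
  have h := ae_dens D.hg.continuous.measurable
  rw [← hπ.2] at h
  exact ae_of_ae_map measurable_snd.aemeasurable h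

theorem continuous_coord : Continuous fun x : EuclideanSpace ℝ (Fin (n + 2)) => x 0 :=
  (contDiff_piLp_apply (𝕜 := ℝ) (n := ∞) 2).continuous

theorem abs_coord_le (x : EuclideanSpace ℝ (Fin (n + 2))) : |x 0| ≤ ‖x‖ :=
  PiLp.norm_apply_le x 0

theorem integrable_dist (hπ : IsCoupling (dens D.f) (dens D.g) π) :
    Integrable (fun p => dist p.1 p.2) π := by
  have := prob_of_coupling hπ
  apply Integrable.of_bound (C := 5 * ((n:ℝ) + 2) + 5 * (n + 2))
  · exact continuous_dist.aestronglyMeasurable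
  · filter_upwards [ae_f_ne hπ, ae_g_ne hπ] with p h1 h2
    rw [Real.norm_eq_abs, abs_of_nonneg dist_nonneg]
    exact (dist_le_norm_add_norm _ _).trans (add_le_add (D.f_norm h1) (D.g_norm h2))

theorem integrable_fst (hπ : IsCoupling (dens D.f) (dens D.g) π) :
    Integrable (fun p => p.1 0) π := by
  have := prob_of_coupling hπ
  apply Integrable.of_bound (C := 5 * ((n:ℝ) + 2))
  · exact (continuous_coord.comp continuous_fst).aestronglyMeasurable
  · filter_upwards [ae_f_ne hπ] with p h1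
    exact (abs_coord_le _).trans (D.f_norm h1)

theorem integrable_snd (hπ : IsCoupling (dens D.f) (dens D.g) π) :
    Integrable (fun p => p.2 0) π := by
  have := prob_of_coupling hπ
  apply Integrable.of_bound (C := 5 * ((n:ℝ) + 2))
  · exact (continuous_coord.comp continuous_snd).aestronglyMeasurable
  · filter_upwards [ae_g_ne hπ] with p h1
    exact (abs_coord_le _).trans (D.g_norm h1)

variable (D) in
/-- The optimal value. -/
noncomputable def val : ℝ := ∫ x, x 0 ∂(dens D.g) - ∫ x, x 0 ∂(dens D.f)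

theorem integral_sub_eq (hπ : IsCoupling (dens D.f) (dens D.g) π) :
    ∫ p, (p.2 0 - p.1 0) ∂π = D.val := by
  rw [integral_sub (integrable_snd hπ) (integrable_fst hπ), val, ← hπ.1]
  conv_rhs => rw [← hπ.2]
  rw [integral_map measurable_fst.aemeasurable continuous_coord.aestronglyMeasurable,
    integral_map measurable_snd.aemeasurable continuous_coord.aestronglyMeasurable]

theorem cost_eq (hπ : IsCoupling (dens D.f) (dens D.g) π) :
    cost π = ENNReal.ofReal (∫ p, dist p.1 p.2 ∂π) := by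
  rw [ofReal_integral_eq_lintegral_ofReal (integrable_dist hπ)
    (Filter.Eventually.of_forall fun p => dist_nonneg), cost]
  refine lintegral_congr fun p => ?_
  rw [edist_dist]

theorem val_le (hπ : IsCoupling (dens D.f) (dens D.g) π) : D.val ≤ ∫ p, dist p.1 p.2 ∂π := by
  rw [← integral_sub_eq hπ]
  exact integral_mono ((integrable_snd hπ).sub (integrable_fst hπ)) (integrable_dist hπ)
    fun p => le_dist _ _

theorem ae_tail_π₀ : ∀ᵐ p ∂D.π₀, tail p.1 = tail p.2 := by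
  rw [π₀, ae_map_iff measurable_aux.aemeasurable]
  · exact Filter.Eventually.of_forall fun p => rfl
  · exact (isClosed_eq (continuous_tail.comp continuous_fst)
      (continuous_tail.comp continuous_snd)).measurableSet

theorem integral_dist_π₀ : ∫ p, dist p.1 p.2 ∂D.π₀ = D.val := by
  rw [← integral_sub_eq D.isCoupling_π₀]
  apply integral_congr_ae
  filter_upwards [ae_tail_π₀, ae_f_ne D.isCoupling_π₀, ae_g_ne D.isCoupling_π₀] with p h1 h2 h3
  apply dist_of_tail_eq h1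
  have := D.f_fst h2
  have := D.g_fst h3
  linarith [(D.f_fst h2).2, (D.g_fst h3).1]

theorem isOptimal_π₀ : IsOptimal (dens D.f) (dens D.g) D.π₀ := by
  refine ⟨D.isCoupling_π₀, fun π' hπ' => ?_⟩
  rw [cost_eq D.isCoupling_π₀, cost_eq hπ', integral_dist_π₀]
  exact ENNReal.ofReal_le_ofReal (val_le hπ')

theorem ae_tail_of_optimal (hπ : IsOptimal (dens D.f) (dens D.g) π) :
    ∀ᵐ p ∂π, tail p.1 = tail p.2 := by
  have h1 := hπ.2 _ D.isCoupling_π₀
  rw [cost_eq hπ.1, cost_eq D.isCoupling_π₀,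
    ENNReal.ofReal_le_ofReal_iff (integral_nonneg fun p => dist_nonneg), integral_dist_π₀,
    ← integral_sub_eq hπ.1] at h1
  have hint2 : Integrable (fun p => p.2 0 - p.1 0) π :=
    (integrable_snd hπ.1).sub (integrable_fst hπ.1)
  have hint : Integrable (fun p => dist p.1 p.2 - (p.2 0 - p.1 0)) π :=
    (integrable_dist hπ.1).sub hint2
  have h2 : ∫ p, (dist p.1 p.2 - (p.2 0 - p.1 0)) ∂π = 0 := by
    apply le_antisymm
    · rw [integral_sub (integrable_dist hπ.1) hint2]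
      simpa using h1
    · exact integral_nonneg fun p => sub_nonneg.2 (le_dist _ _)
  rw [integral_eq_zero_iff_of_nonneg (fun p => sub_nonneg.2 (le_dist _ _)) hint] at h2
  filter_upwards [h2] with p hp
  apply tail_eq_of_dist
  have : dist p.1 p.2 - (p.2 0 - p.1 0) = 0 := hp
  linarith

/-! #### The support of an optimal coupling -/

theorem fib_pos_of_mem {k : ℕ} {y : Fin (n + 1) → ℝ} (hI : (Iset k).Nonempty)
    (hy : y ∈ Wset D.Z k) (hy2 : ‖y‖ < 2) : 0 < fib D.f y := by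
  obtain ⟨t, ht⟩ := hI
  have hne : D.f (pt t y) ≠ 0 := (D.hfs _).2 ⟨k, by simpa using ht, by simpa using hy,
    by simpa using hy2⟩
  have hcont : Continuous (fun t : ℝ => D.f (pt t y)) :=
    D.hf.continuous.comp (continuous_pt.comp (continuous_id.prodMk continuous_const))
  have hcs : HasCompactSupport (fun t : ℝ => D.f (pt t y)) := by
    apply HasCompactSupport.intro (isCompact_Icc (a := (-2:ℝ)) (b := 2))
    intro t ht
    by_contra hne
    exact ht (D.f_fst' hne)
  exact hcont.integral_pos_of_hasCompactSupport_nonneg_nonzero hcs (fun t => D.hfnn _) hne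

theorem mem_support (hπ : IsOptimal (dens D.f) (dens D.g) π) {z : Fin (n + 1) → ℝ} (hz : z ∈ D.Z)
    {a b : ℝ} (ha : a ∈ Icc (-1:ℝ) 1) (hb : b ∈ Icc (3:ℝ) 5) :
    ((pt a z, pt b z) : EuclideanSpace ℝ (Fin (n + 2)) × EuclideanSpace ℝ (Fin (n + 2))) ∈
      π.support := by
  rw [Measure.mem_support_iff_forall]
  intro U hU
  -- continuity
  have hF : Continuous fun q : ℝ × ℝ × (Fin (n + 1) → ℝ) =>
      ((pt q.1 q.2.2, pt q.2.1 q.2.2) :
        EuclideanSpace ℝ (Fin (n + 2)) × EuclideanSpace ℝ (Fin (n + 2))) := by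
    apply Continuous.prodMk
    · exact continuous_pt.comp (continuous_fst.prodMk (continuous_snd.comp continuous_snd))
    · exact continuous_pt.comp ((continuous_fst.comp continuous_snd).prodMk
        (continuous_snd.comp continuous_snd))
  have hmem := hF.continuousAt.preimage_mem_nhds (x := (a, b, z)) hU
  obtain ⟨δ, hδ, hball⟩ := Metric.mem_nhds_iff.1 hmem
  obtain ⟨k, hak, hIk⟩ := exists_Iset ha hδ
  obtain ⟨y₁, hy₁, hy₁z⟩ := Wset_accum D.hZc D.hZi hz k (lt_min hδ one_pos)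
  have hzn : ‖z‖ ≤ 1 := by simpa using D.hZb hz
  have hy₁n : ‖y₁‖ < 2 := by
    have h1 : ‖y₁‖ ≤ ‖y₁ - z‖ + ‖z‖ := by simpa using norm_add_le (y₁ - z) z
    have h2 : ‖y₁ - z‖ < 1 := by
      rw [← dist_eq_norm]; exact lt_of_lt_of_le hy₁z (min_le_right _ _)
    linarith
  set V : Set (EuclideanSpace ℝ (Fin (n + 2))) :=
    {y | y 0 ∈ Ioo (3:ℝ) 5 ∧ dist (y 0) b < δ ∧ tail y ∈ Wset D.Z k ∧ ‖tail y‖ < 2 ∧
      dist (tail y) z < δ} with hV
  have hVo : IsOpen V := by
    apply IsOpen.and (isOpen_Ioo.preimage continuous_coord)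
    apply IsOpen.and (isOpen_lt (continuous_coord.dist continuous_const) continuous_const)
    apply IsOpen.and ((isOpen_Wset D.Z k).preimage continuous_tail)
    apply IsOpen.and (isOpen_lt continuous_tail.norm continuous_const)
    exact isOpen_lt (continuous_tail.dist continuous_const) continuous_const
  have hVne : V.Nonempty := by
    have hcl : b ∈ closure (Ioo (3:ℝ) 5) := by
      rw [closure_Ioo (by norm_num)]; exact hb
    obtain ⟨b', hb', hbd⟩ := Metric.mem_closure_iff.1 hcl δ hδ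
    refine ⟨pt b' y₁, ?_⟩
    simp only [hV, mem_ofPred_eq, pt_zero, tail_pt]
    exact ⟨hb', by rwa [dist_comm], hy₁, hy₁n, lt_of_lt_of_le hy₁z (min_le_left _ _)⟩
  have hgV : ∀ y ∈ V, D.g y ≠ 0 := by
    rintro y ⟨h1, -, h2, h3, -⟩
    exact mul_ne_zero ((D.hχs _).2 h1) (fib_pos_of_mem ⟨a, hak⟩ h2 h3).ne'
  have hνV : dens D.g V ≠ 0 := by
    intro h0
    rw [dens, withDensity_apply_eq_zero D.hg.continuous.measurable.ennreal_ofReal] at h0
    have : {x | ENNReal.ofReal (D.g x) ≠ 0} ∩ V = V := by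
      apply inter_eq_right.2
      intro y hy
      simp only [mem_ofPred_eq, ne_eq, ENNReal.ofReal_eq_zero, not_le]
      exact lt_of_le_of_ne (D.hgnn y) (hgV y hy).symm
    rw [this] at h0
    exact (hVo.measure_pos volume hVne).ne' h0
  have hπV : π (Prod.snd ⁻¹' V) ≠ 0 := by
    rw [← Measure.map_apply measurable_snd hVo.measurableSet, hπ.1.2]
    exact hνV
  have hsub : ∀ᵐ p ∂π, p ∈ Prod.snd ⁻¹' V → p ∈ U := by
    filter_upwards [ae_tail_of_optimal hπ, ae_f_ne hπ.1] with p h1 h2 h3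
    obtain ⟨h4, h5, h6, h7, h8⟩ : p.2 ∈ V := h3
    obtain ⟨l, hl, hlW, -⟩ := (D.hfs _).1 h2
    rw [h1] at hlW
    have hlk : l = k := Wset_unique hlW h6
    subst hlk
    have hp : (p.1 0, p.2 0, tail p.2) ∈ ball (a, b, z) δ := by
      rw [mem_ball, Prod.dist_eq, Prod.dist_eq]
      exact max_lt (hIk _ hl) (max_lt h5 h8)
    have := hball hp
    have he : ((pt (p.1 0) (tail p.2), pt (p.2 0) (tail p.2)) :
        EuclideanSpace ℝ (Fin (n + 2)) × EuclideanSpace ℝ (Fin (n + 2))) = p := by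
      rw [pt_tail, ← h1, pt_tail]
    rw [mem_preimage] at this
    rwa [he] at this
  have hle : π (Prod.snd ⁻¹' V) ≤ π U := measure_mono_ae hsub
  exact lt_of_lt_of_le (pos_iff_ne_zero.2 hπV) hle

end Data

/-! ### Step 4: dimension -/

/-- The projection used to bound the dimension from below. -/
def proj {n : ℕ} (p : EuclideanSpace ℝ (Fin (n + 2)) × EuclideanSpace ℝ (Fin (n + 2))) :
    Fin (n + 3) → ℝ := Fin.cons (p.2 0) (Fin.cons (p.1 0) (tail p.1))

theorem lipschitz_proj {n : ℕ} : LipschitzWith 1 (proj (n := n)) := by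
  apply LipschitzWith.of_dist_le_mul
  intro p q
  rw [NNReal.coe_one, one_mul, dist_pi_le_iff dist_nonneg]
  have h : ∀ (x y : EuclideanSpace ℝ (Fin (n + 2))) (i : Fin (n + 2)),
      dist (x i) (y i) ≤ dist x y := by
    intro x y i
    rw [dist_eq_norm, dist_eq_norm]
    exact PiLp.norm_apply_le (x - y) i
  intro i
  refine Fin.cases ?_ (fun j => ?_) i
  · exact (h p.2 q.2 0).trans (le_max_right _ _)
  · refine Fin.cases ?_ (fun l => ?_) j
    · exact (h p.1 q.1 0).trans (le_max_left _ _)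
    · exact (h p.1 q.1 l.succ).trans (le_max_left _ _)

/-- The model set of positive measure. -/
def model {n : ℕ} (Z : Set (Fin (n + 1) → ℝ)) : Set (Fin (n + 3) → ℝ) :=
  {q | q 0 ∈ Icc (3:ℝ) 5 ∧ q 1 ∈ Icc (-1:ℝ) 1 ∧ (fun i : Fin (n + 1) => q i.succ.succ) ∈ Z}

theorem volume_model {n : ℕ} (Z : Set (Fin (n + 1) → ℝ)) (hZ : 0 < volume Z) :
    0 < volume (model Z) := by
  have e1 := volume_preserving_piFinSuccAbove (fun _ : Fin (n + 3) => ℝ) 0
  have e2 := volume_preserving_piFinSuccAbove (fun _ : Fin (n + 2) => ℝ) 0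
  set Q : Set (Fin (n + 2) → ℝ) :=
    {q | q 0 ∈ Icc (-1:ℝ) 1 ∧ (fun i : Fin (n + 1) => q i.succ) ∈ Z} with hQ
  have h1 : model Z = (MeasurableEquiv.piFinSuccAbove (fun _ : Fin (n + 3) => ℝ) 0) ⁻¹'
      (Icc (3:ℝ) 5 ×ˢ Q) := by
    ext q
    simp only [model, mem_ofPred_eq, mem_preimage, mem_prod, hQ]
    rfl
  have h2 : Q = (MeasurableEquiv.piFinSuccAbove (fun _ : Fin (n + 2) => ℝ) 0) ⁻¹'
      (Icc (-1:ℝ) 1 ×ˢ Z) := by
    ext q
    simp only [mem_ofPred_eq, mem_preimage, mem_prod, hQ]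
    rfl
  have hQ' : 0 < volume Q := by
    rw [h2, e2.measure_preimage_equiv, Measure.volume_eq_prod, Measure.prod_prod]
    apply ENNReal.mul_pos _ hZ.ne'
    rw [Real.volume_Icc]
    norm_num
  rw [h1, e1.measure_preimage_equiv, Measure.volume_eq_prod, Measure.prod_prod]
  apply ENNReal.mul_pos _ hQ'.ne'
  rw [Real.volume_Icc]
  norm_num

theorem dimH_model {n : ℕ} (Z : Set (Fin (n + 1) → ℝ)) (hZ : 0 < volume Z) :
    ((n + 3 : ℕ) : ℝ≥0∞) ≤ dimH (model Z) := by
  have h := volume_model Z hZ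
  rw [← hausdorffMeasure_pi_real] at h
  have h2 : μH[((n + 3 : ℕ) : NNReal)] (model Z) ≠ 0 := by
    simp only [Fintype.card_fin] at h
    exact h.ne'
  simpa using le_dimH_of_hausdorffMeasure_ne_zero h2

theorem dimH_support {n : ℕ} {D : Data n}
    {π : Measure (EuclideanSpace ℝ (Fin (n + 2)) × EuclideanSpace ℝ (Fin (n + 2)))}
    (hπ : IsOptimal (dens D.f) (dens D.g) π) :
    ((n + 3 : ℕ) : ℝ≥0∞) ≤ dimH π.support := by
  refine (dimH_model D.Z D.hZv).trans (le_trans (dimH_mono ?_)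
    (lipschitz_proj.dimH_image_le π.support))
  intro q hq
  obtain ⟨h1, h2, h3⟩ := hq
  refine ⟨_, Data.mem_support hπ h3 h2 h1, ?_⟩
  funext i
  refine Fin.cases ?_ (fun j => ?_) i
  · rfl
  · refine Fin.cases ?_ (fun l => ?_) j <;> rfl

/-! ### Step 5: existence of the data -/

theorem exists_data (n : ℕ) : Nonempty (Data n) := by
  obtain ⟨Z, hZc, hZb, hZi, hZv⟩ := exists_fat n
  have hZne : Z.Nonempty := by
    rcases Z.eq_empty_or_nonempty with h | h
    · rw [h, measure_empty] at hZv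
      exact absurd hZv (lt_irrefl _)
    · exact h
  set O : Set (EuclideanSpace ℝ (Fin (n + 2))) :=
    {x | ∃ k, x 0 ∈ Iset k ∧ tail x ∈ Wset Z k ∧ ‖tail x‖ < 2} with hO
  have hOo : IsOpen O := by
    have : O = ⋃ k, {x | x 0 ∈ Iset k ∧ tail x ∈ Wset Z k ∧ ‖tail x‖ < 2} := by
      ext x; simp [hO]
    rw [this]
    refine isOpen_iUnion fun k => ?_
    apply IsOpen.and ((isOpen_Iset k).preimage Data.continuous_coord)
    apply IsOpen.and ((isOpen_Wset Z k).preimage continuous_tail)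
    exact isOpen_lt continuous_tail.norm continuous_const
  have hOne : O.Nonempty := by
    obtain ⟨z, hz⟩ := hZne
    obtain ⟨k, hk, -⟩ := exists_Iset (a := 0) ⟨by norm_num, by norm_num⟩ one_pos
    obtain ⟨y, hy, hyz⟩ := Wset_accum hZc hZi hz k one_pos
    refine ⟨pt 0 y, k, by simpa using hk, by simpa using hy, ?_⟩
    have hzn : ‖z‖ ≤ 1 := by simpa using hZb hz
    have h1 : ‖y‖ ≤ ‖y - z‖ + ‖z‖ := by simpa using norm_add_le (y - z) z
    rw [dist_eq_norm] at hyz
    rw [tail_pt]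
    linarith
  obtain ⟨f₀, hf₀s, hf₀, hf₀r⟩ := hOo.exists_contDiff_support_eq (n := ⊤)
  have hf₀nn : ∀ x, 0 ≤ f₀ x := fun x => (hf₀r (mem_range_self x)).1
  have hf₀c : HasCompactSupport f₀ := by
    apply HasCompactSupport.intro (isCompact_closedBall (0 : EuclideanSpace ℝ (Fin (n + 2)))
      (5 * (n + 2)))
    intro x hx
    by_contra hne
    apply hx
    rw [mem_closedBall_zero_iff]
    have hxO : x ∈ O := by rw [← hf₀s]; exact hne
    obtain ⟨k, hk, -, hk2⟩ := hxO
    apply Data.norm_le_of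
    · rw [abs_le]; constructor <;> linarith [hk.2.1, hk.2.2]
    · linarith
  have hf₀i : 0 < ∫ x, f₀ x := by
    obtain ⟨x, hx⟩ := hOne
    have hne : f₀ x ≠ 0 := by rw [← hf₀s] at hx; exact hx
    exact hf₀.continuous.integral_pos_of_hasCompactSupport_nonneg_nonzero hf₀c hf₀nn hne
  obtain ⟨χ₀, hχ₀s, hχ₀, hχ₀r⟩ := (isOpen_Ioo (a := (3:ℝ)) (b := 5)).exists_contDiff_support_eq
    (n := ⊤)
  have hχ₀nn : ∀ x, 0 ≤ χ₀ x := fun x => (hχ₀r (mem_range_self x)).1
  have hχ₀c : HasCompactSupport χ₀ := by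
    apply HasCompactSupport.intro (isCompact_Icc (a := (3:ℝ)) (b := 5))
    intro x hx
    by_contra hne
    have : x ∈ Function.support χ₀ := hne
    rw [hχ₀s] at this
    exact hx (Ioo_subset_Icc_self this)
  have hχ₀i : 0 < ∫ x, χ₀ x := by
    have hne : χ₀ 4 ≠ 0 := by
      have : (4:ℝ) ∈ Function.support χ₀ := by rw [hχ₀s]; constructor <;> norm_num
      exact this
    exact hχ₀.continuous.integral_pos_of_hasCompactSupport_nonneg_nonzero hχ₀c hχ₀nn hne
  refine ⟨{ Z := Z, hZc := hZc, hZb := hZb, hZi := hZi, hZv := hZv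
            f := fun x => (∫ x, f₀ x)⁻¹ * f₀ x
            hf := contDiff_const.mul hf₀
            hfc := hf₀c.mul_left
            hfnn := fun x => mul_nonneg (inv_nonneg.2 hf₀i.le) (hf₀nn x)
            hf1 := by rw [integral_const_mul, inv_mul_cancel₀ hf₀i.ne']
            hfs := ?_
            χ := fun x => (∫ x, χ₀ x)⁻¹ * χ₀ x
            hχ := contDiff_const.mul hχ₀
            hχnn := fun x => mul_nonneg (inv_nonneg.2 hχ₀i.le) (hχ₀nn x)
            hχ1 := by rw [integral_const_mul, inv_mul_cancel₀ hχ₀i.ne']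
            hχs := ?_ }⟩
  · intro x
    have h1 : (∫ x, f₀ x)⁻¹ * f₀ x ≠ 0 ↔ f₀ x ≠ 0 := by
      rw [mul_ne_zero_iff]
      exact and_iff_right (inv_ne_zero hf₀i.ne')
    rw [h1]
    have h2 : x ∈ Function.support f₀ ↔ x ∈ O := by rw [hf₀s]
    exact h2
  · intro t
    have h1 : (∫ x, χ₀ x)⁻¹ * χ₀ t ≠ 0 ↔ χ₀ t ≠ 0 := by
      rw [mul_ne_zero_iff]
      exact and_iff_right (inv_ne_zero hχ₀i.ne')
    rw [h1]
    have h2 : t ∈ Function.support χ₀ ↔ t ∈ Ioo (3:ℝ) 5 := by rw [hχ₀s]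
    exact h2

/-- **Main theorem.** -/
theorem main (n : ℕ) (hn : 2 ≤ n) :
    ∃ f g : EuclideanSpace ℝ (Fin n) → ℝ,
      ContDiff ℝ ∞ f ∧ ContDiff ℝ ∞ g ∧ HasCompactSupport f ∧ HasCompactSupport g ∧
      (∀ x, 0 ≤ f x) ∧ (∀ x, 0 ≤ g x) ∧ ∫ x, f x = 1 ∧ ∫ x, g x = 1 ∧
      (∃ π : Measure (EuclideanSpace ℝ (Fin n) × EuclideanSpace ℝ (Fin n)),
        IsOptimal (dens f) (dens g) π) ∧
      ∀ π : Measure (EuclideanSpace ℝ (Fin n) × EuclideanSpace ℝ (Fin n)),
        IsOptimal (dens f) (dens g) π →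
          (n : ℝ≥0∞) + 1 ≤ dimH (WithLp.toLp 2 '' π.support) := by
  obtain ⟨m, rfl⟩ : ∃ m, n = m + 2 := ⟨n - 2, by omega⟩
  obtain ⟨D⟩ := exists_data m
  refine ⟨D.f, D.g, D.hf, D.hg, D.hfc, D.hgc, D.hfnn, D.hgnn, D.hf1, D.integral_g,
    ⟨D.π₀, Data.isOptimal_π₀⟩, fun π hπ => ?_⟩
  have h1 := dimH_support hπ
  have h2 := (WithLp.prodContinuousLinearEquiv 2 ℝ (EuclideanSpace ℝ (Fin (m + 2)))
    (EuclideanSpace ℝ (Fin (m + 2)))).symm.dimH_image π.support
  have h3 : (WithLp.toLp 2 '' π.support) = (WithLp.prodContinuousLinearEquiv 2 ℝ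
      (EuclideanSpace ℝ (Fin (m + 2))) (EuclideanSpace ℝ (Fin (m + 2)))).symm '' π.support := rfl
  rw [h3, h2]
  calc ((m + 2 : ℕ) : ℝ≥0∞) + 1 = ((m + 3 : ℕ) : ℝ≥0∞) := by push_cast; ring
    _ ≤ _ := h1

end Pool.Agent.Helper83.OT
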