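import Mathlib

/-!
Probability part of Theorem S for MP_5d193c_co: random graphs on `Fin n` whose pairs `i < j` are
edges independently with arbitrary probabilities `π i j ∈ [p₁, p₂]`; the two-sided density
condition `BiJ` holds at the scale `C log n` with probability tending to 1, uniformly in `π`.
-/

open Finset Filter Topology
open scoped Classical

namespace SNInh

noncomputable section

/-- number of ordered pairs `(a,b) ∈ A × B` which are adjacent in `G`. -/
def eAB {V : Type*} (G : SimpleGraph V) (A B : Finset V) : ℕ :=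
  ((A ×ˢ B).filter fun q => G.Adj q.1 q.2).card

/-- the densities of all pairs of vertex sets are between `p₁` and `p₂` up to `ε`, at scales at
least `m` -/
def BiJ {V : Type*} (G : SimpleGraph V) (p₁ p₂ ε m : ℝ) : Prop :=
  ∀ A B : Finset V,
    p₁ * A.card * B.card - ε * (max (max (A.card : ℝ) (B.card : ℝ)) m) ^ 2 ≤
        ∑ a ∈ A, ∑ b ∈ B, (if G.Adj a b then (1 : ℝ) else 0) ∧
      ∑ a ∈ A, ∑ b ∈ B, (if G.Adj a b then (1 : ℝ) else 0) ≤
        p₂ * A.card * B.card + ε * (max (max (A.card : ℝ) (B.card : ℝ)) m) ^ 2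

lemma sum_eq_eAB {V : Type*} (G : SimpleGraph V) (A B : Finset V) :
    ∑ a ∈ A, ∑ b ∈ B, (if G.Adj a b then (1 : ℝ) else 0) = (eAB G A B : ℝ) := by
  unfold eAB
  rw [Finset.card_eq_sum_ones, Finset.sum_filter, Finset.sum_product]
  push_cast
  rfl

lemma BiJ.mono {V : Type*} {G : SimpleGraph V} {p₁ p₂ ε m ε' m' : ℝ} (h : BiJ G p₁ p₂ ε m)
    (hε0 : 0 ≤ ε) (hε : ε ≤ ε') (hm : m ≤ m') : BiJ G p₁ p₂ ε' m' := by
  intro A B
  obtain ⟨h4, h5⟩ := h A B
  have h1 : (0 : ℝ) ≤ max (max (A.card : ℝ) (B.card : ℝ)) m :=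
    le_trans (Nat.cast_nonneg _) ((le_max_left _ _).trans (le_max_left _ _))
  have h2 : max (max (A.card : ℝ) (B.card : ℝ)) m ≤ max (max (A.card : ℝ) (B.card : ℝ)) m' :=
    max_le_max le_rfl hm
  have h3 := pow_le_pow_left₀ h1 h2 2
  have h6 := mul_le_mul hε h3 (by positivity) (hε0.trans hε)
  exact ⟨by linarith, by linarith⟩

/-- weight of the graph `G` when the pairs `i < j` are edges independently with probabilities
`π i j` -/
def wgt (n : ℕ) (π : Fin n → Fin n → ℝ) (G : SimpleGraph (Fin n)) : ℝ :=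
  ∏ q : Fin n × Fin n with q.1 < q.2, (if G.Adj q.1 q.2 then π q.1 q.2 else 1 - π q.1 q.2)

/-- probability of the property `P` -/
def prob (n : ℕ) (π : Fin n → Fin n → ℝ) (P : SimpleGraph (Fin n) → Prop) : ℝ :=
  ∑ G : SimpleGraph (Fin n) with P G, wgt n π G

/-- the set of pairs `i < j`. -/
def prs (n : ℕ) : Finset (Fin n × Fin n) := univ.filter fun q => q.1 < q.2

/-- graph from a set of pairs -/
def toG {n : ℕ} (T : Finset (Fin n × Fin n)) : SimpleGraph (Fin n) where
  Adj i j := (i < j ∧ (i, j) ∈ T) ∨ (j < i ∧ (j, i) ∈ T)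
  symm := ⟨by
    intro i j h
    rcases h with h | h
    · exact Or.inr h
    · exact Or.inl h⟩
  loopless := ⟨by
    intro i h
    rcases h with h | h
    · exact lt_irrefl _ h.1
    · exact lt_irrefl _ h.1⟩

lemma toG_adj_lt {n : ℕ} (T : Finset (Fin n × Fin n)) {i j : Fin n} (h : i < j) :
    (toG T).Adj i j ↔ (i, j) ∈ T := by
  constructor
  · intro h'
    rcases h' with h' | h'
    · exact h'.2
    · exact absurd h'.1 (asymm h)
  · intro h'
    exact Or.inl ⟨h, h'⟩

/-- pairs of a graph -/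
def ofG {n : ℕ} (G : SimpleGraph (Fin n)) : Finset (Fin n × Fin n) :=
  (prs n).filter fun q => G.Adj q.1 q.2

lemma sum_graph_eq (n : ℕ) (F : SimpleGraph (Fin n) → ℝ) :
    ∑ G : SimpleGraph (Fin n), F G = ∑ T ∈ (prs n).powerset, F (toG T) := by
  refine Finset.sum_bij' (fun G _ => ofG G) (fun T _ => toG T) ?_ ?_ ?_ ?_ ?_
  · intro G _
    simp only [mem_powerset, ofG]
    exact filter_subset _ _
  · intro T _
    exact mem_univ _
  · intro G _
    ext i j
    rcases lt_trichotomy i j with h | h | h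
    · rw [toG_adj_lt _ h]
      simp [ofG, prs, h]
    · subst h
      simp
    · rw [SimpleGraph.adj_comm, toG_adj_lt _ h, SimpleGraph.adj_comm]
      simp [ofG, prs, h]
  · intro T hT
    ext ⟨i, j⟩
    rw [mem_powerset] at hT
    simp only [ofG, mem_filter]
    constructor
    · rintro ⟨h1, h2⟩
      have h : i < j := by simpa [prs] using h1
      exact (toG_adj_lt _ h).1 h2
    · intro h
      have h1 := hT h
      have h' : i < j := by simpa [prs] using h1
      exact ⟨h1, (toG_adj_lt _ h').2 h⟩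
  · intro G _
    congr 1
    ext i j
    rcases lt_trichotomy i j with h | h | h
    · rw [toG_adj_lt _ h]
      simp [ofG, prs, h]
    · subst h
      simp
    · rw [SimpleGraph.adj_comm, SimpleGraph.adj_comm (toG _), toG_adj_lt _ h]
      simp [ofG, prs, h]

/-- product formula -/
lemma sum_prod_graph (n : ℕ) (x y : Fin n × Fin n → ℝ) :
    ∑ G : SimpleGraph (Fin n), ∏ q ∈ prs n, (if G.Adj q.1 q.2 then x q else y q)
      = ∏ q ∈ prs n, (x q + y q) := by
  rw [sum_graph_eq, Finset.prod_add]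
  refine Finset.sum_congr rfl ?_
  intro T hT
  rw [mem_powerset] at hT
  rw [← Finset.prod_sdiff hT, mul_comm]
  congr 1
  · refine Finset.prod_congr rfl ?_
    intro q hq
    have h : q.1 < q.2 := by simpa [prs] using hT hq
    rw [if_pos]
    exact (toG_adj_lt T h).2 hq
  · refine Finset.prod_congr rfl ?_
    intro q hq
    replace hq := Finset.mem_sdiff.1 hq
    have h : q.1 < q.2 := by simpa [prs] using hq.1
    rw [if_neg]
    intro h'
    exact hq.2 ((toG_adj_lt T h).1 h')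

/-- all values are probabilities -/
def IsP (n : ℕ) (π : Fin n → Fin n → ℝ) : Prop := ∀ i j, 0 ≤ π i j ∧ π i j ≤ 1

lemma wgt_nonneg {n : ℕ} {π : Fin n → Fin n → ℝ} (hπ : IsP n π) (G : SimpleGraph (Fin n)) :
    0 ≤ wgt n π G := by
  refine Finset.prod_nonneg ?_
  intro q _
  split_ifs
  · exact (hπ _ _).1
  · linarith [(hπ q.1 q.2).2]

lemma prob_true (n : ℕ) (π : Fin n → Fin n → ℝ) : prob n π (fun _ => True) = 1 := by
  unfold prob wgt
  rw [Finset.filter_true]
  have := sum_prod_graph n (fun q => π q.1 q.2) (fun q => 1 - π q.1 q.2)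
  unfold prs at this
  rw [this]
  simp

lemma sum_wgt (n : ℕ) (π : Fin n → Fin n → ℝ) : ∑ G : SimpleGraph (Fin n), wgt n π G = 1 := by
  have := prob_true n π
  unfold prob at this
  rwa [Finset.filter_true] at this

lemma prob_mono {n : ℕ} {π : Fin n → Fin n → ℝ} (hπ : IsP n π)
    {P Q : SimpleGraph (Fin n) → Prop} (h : ∀ G, P G → Q G) : prob n π P ≤ prob n π Q := by
  unfold prob
  refine Finset.sum_le_sum_of_subset_of_nonneg ?_ ?_
  · intro G hG
    simp only [mem_filter, mem_univ, true_and] at hG ⊢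
    exact h G hG
  · intro G _ _
    exact wgt_nonneg hπ G

lemma prob_le_one {n : ℕ} {π : Fin n → Fin n → ℝ} (hπ : IsP n π)
    (P : SimpleGraph (Fin n) → Prop) : prob n π P ≤ 1 := by
  rw [← prob_true n π]
  exact prob_mono hπ (fun _ _ => trivial)

lemma prob_compl {n : ℕ} (π : Fin n → Fin n → ℝ) (P : SimpleGraph (Fin n) → Prop) :
    prob n π P + prob n π (fun G => ¬ P G) = 1 := by
  rw [← prob_true n π]
  unfold prob
  rw [Finset.filter_true]
  rw [← Finset.sum_filter_add_sum_filter_not univ P]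
  congr 1
  refine Finset.sum_congr ?_ (fun _ _ => rfl)
  ext G
  simp

/-- multiplicity of the pair `q` in `A × B`. -/
def wt {n : ℕ} (A B : Finset (Fin n)) (q : Fin n × Fin n) : ℕ :=
  (if q ∈ A ×ˢ B then 1 else 0) + (if q.swap ∈ A ×ˢ B then 1 else 0)

lemma wt_le_two {n : ℕ} (A B : Finset (Fin n)) (q : Fin n × Fin n) : wt A B q ≤ 2 := by
  unfold wt
  split_ifs <;> omega

/-- sum over ordered pairs off the diagonal as a sum over `prs`. -/
lemma sum_offdiag {n : ℕ} (f : Fin n × Fin n → ℕ) (hf : ∀ i, f (i, i) = 0) :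
    ∑ q : Fin n × Fin n, f q = ∑ q ∈ prs n, (f q + f q.swap) := by
  have h1 : (univ : Finset (Fin n × Fin n)) =
      (univ.filter fun q : Fin n × Fin n => q.1 < q.2) ∪
      ((univ.filter fun q : Fin n × Fin n => q.2 < q.1) ∪
        (univ.filter fun q : Fin n × Fin n => q.1 = q.2)) := by
    ext q
    simp only [mem_univ, mem_union, mem_filter, true_and, true_iff]
    rcases lt_trichotomy q.1 q.2 with h | h | h
    · exact Or.inl h
    · exact Or.inr (Or.inr h)
    · exact Or.inr (Or.inl h)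
  rw [h1, Finset.sum_union, Finset.sum_union, Finset.sum_add_distrib]
  · congr 1
    have h2 : ∑ q : Fin n × Fin n with q.1 = q.2, f q = 0 := by
      refine Finset.sum_eq_zero ?_
      rintro ⟨i, j⟩ hq
      simp only [mem_filter, mem_univ, true_and] at hq
      subst hq
      exact hf i
    rw [h2, add_zero]
    refine Finset.sum_bij' (fun q _ => q.swap) (fun q _ => q.swap) ?_ ?_ ?_ ?_ ?_
    · intro q hq
      simpa [prs] using hq
    · intro q hq
      simpa [prs] using hq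
    · intro q _
      simp
    · intro q _
      simp
    · intro q _
      simp
  · rw [Finset.disjoint_left]
    intro q h h'
    simp only [mem_filter, mem_univ, true_and] at h h'
    rw [h'] at h
    exact lt_irrefl _ h
  · rw [Finset.disjoint_left]
    intro q h h'
    simp only [mem_filter, mem_univ, true_and, mem_union] at h h'
    rcases h' with h' | h'
    · exact absurd h' (asymm h)
    · rw [h'] at h
      exact lt_irrefl _ h

lemma eAB_eq {n : ℕ} (G : SimpleGraph (Fin n)) (A B : Finset (Fin n)) :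
    eAB G A B = ∑ q ∈ prs n, (if G.Adj q.1 q.2 then wt A B q else 0) := by
  have h0 : eAB G A B = ∑ q : Fin n × Fin n, (if q ∈ A ×ˢ B ∧ G.Adj q.1 q.2 then 1 else 0) := by
    unfold eAB
    rw [Finset.card_eq_sum_ones, Finset.sum_filter, ← Finset.sum_filter_add_sum_filter_not univ
      (fun q : Fin n × Fin n => q ∈ A ×ˢ B)]
    rw [Finset.filter_mem_eq_inter, Finset.univ_inter]
    rw [Finset.sum_eq_zero (s := univ.filter fun q : Fin n × Fin n => ¬ q ∈ A ×ˢ B)]
    · rw [add_zero]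
      refine Finset.sum_congr rfl ?_
      intro q hq
      simp only [hq, true_and]
    · intro q hq
      simp only [mem_filter, mem_univ, true_and] at hq
      simp only [hq, false_and, if_false]
  rw [h0, sum_offdiag]
  · refine Finset.sum_congr rfl ?_
    intro q _
    unfold wt
    by_cases h : G.Adj q.1 q.2
    · have h' : G.Adj q.swap.1 q.swap.2 := by simpa using h.symm
      simp only [h, h', and_true, if_true]
    · have h' : ¬ G.Adj q.swap.1 q.swap.2 := by
        intro h2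
        exact h (by simpa using h2.symm)
      simp only [h, h', and_false, if_false]
  · intro i
    simp

lemma sum_wt {n : ℕ} (A B : Finset (Fin n)) :
    ∑ q ∈ prs n, wt A B q + (A ∩ B).card = A.card * B.card := by
  have h1 := sum_offdiag (n := n) (fun q => if q ∈ A ×ˢ B ∧ q.1 ≠ q.2 then 1 else 0) (by
    intro i; simp)
  have h2 : ∑ q ∈ prs n, wt A B q =
      ∑ q ∈ prs n, ((if q ∈ A ×ˢ B ∧ q.1 ≠ q.2 then 1 else 0) +
        (if q.swap ∈ A ×ˢ B ∧ q.swap.1 ≠ q.swap.2 then 1 else 0)) := by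
    refine Finset.sum_congr rfl ?_
    intro q hq
    have h : q.1 < q.2 := by simpa [prs] using hq
    have h3 : q.1 ≠ q.2 := ne_of_lt h
    have h4 : q.swap.1 ≠ q.swap.2 := by simpa using h3.symm
    unfold wt
    simp only [h3, h4, ne_eq, not_false_eq_true, and_true]
  rw [h2, ← h1]
  have h5 : ∑ q : Fin n × Fin n, (if q ∈ A ×ˢ B ∧ q.1 ≠ q.2 then 1 else 0)
      = ((A ×ˢ B).filter fun q => q.1 ≠ q.2).card := by
    rw [← Finset.sum_filter, ← Finset.card_eq_sum_ones]
    congr 1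
    ext q
    simp
  rw [h5]
  have h6 : (A ∩ B).card = ((A ×ˢ B).filter fun q => q.1 = q.2).card := by
    refine Finset.card_bij' (fun i _ => (i, i)) (fun q _ => q.1) ?_ ?_ ?_ ?_
    · intro i hi
      simpa using hi
    · rintro ⟨i, j⟩ hq
      simp only [mem_filter, mem_product] at hq
      obtain ⟨⟨ha, hb⟩, hij⟩ := hq
      subst hij
      simpa using ⟨ha, hb⟩
    · intro i _
      rfl
    · rintro ⟨i, j⟩ hq
      simp only [mem_filter, mem_product] at hq
      obtain ⟨⟨ha, hb⟩, hij⟩ := hq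
      subst hij
      rfl
  rw [h6, add_comm, ← Finset.card_product]
  exact Finset.card_filter_add_card_filter_not _


/-- the real exponential moment. -/
lemma mgf_bound {n : ℕ} {π : Fin n → Fin n → ℝ} (hπ : IsP n π) (A B : Finset (Fin n)) {s : ℝ}
    (hs : |s| ≤ 1 / 2) :
    ∑ G : SimpleGraph (Fin n), wgt n π G *
        Real.exp (s * ((eAB G A B : ℝ) - ∑ q ∈ prs n, π q.1 q.2 * (wt A B q : ℝ))) ≤
      Real.exp (2 * s ^ 2 * ∑ q ∈ prs n, (wt A B q : ℝ)) := by
  have h1 : ∀ G : SimpleGraph (Fin n), wgt n π G *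
        Real.exp (s * ((eAB G A B : ℝ) - ∑ q ∈ prs n, π q.1 q.2 * (wt A B q : ℝ))) =
      ∏ q ∈ prs n, (if G.Adj q.1 q.2 then
        π q.1 q.2 * Real.exp (s * (1 - π q.1 q.2) * wt A B q)
        else (1 - π q.1 q.2) * Real.exp (- s * π q.1 q.2 * wt A B q)) := by
    intro G
    have h2 : (eAB G A B : ℝ) - ∑ q ∈ prs n, π q.1 q.2 * (wt A B q : ℝ) =
        ∑ q ∈ prs n, (if G.Adj q.1 q.2 then (1 - π q.1 q.2) * (wt A B q : ℝ)
          else - π q.1 q.2 * wt A B q) := by
      rw [eAB_eq]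
      push_cast
      rw [← Finset.sum_sub_distrib]
      refine Finset.sum_congr rfl ?_
      intro q _
      split_ifs
      · ring
      · simp
    rw [h2, Finset.mul_sum, Real.exp_sum]
    unfold wgt
    rw [← prs, ← Finset.prod_mul_distrib]
    refine Finset.prod_congr rfl ?_
    intro q _
    split_ifs
    · congr 2
      ring
    · congr 2
      ring
  rw [Finset.sum_congr rfl (fun G _ => h1 G),
    sum_prod_graph n (fun q => π q.1 q.2 * Real.exp (s * (1 - π q.1 q.2) * wt A B q))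
      (fun q => (1 - π q.1 q.2) * Real.exp (- s * π q.1 q.2 * wt A B q)), Finset.mul_sum,
    Real.exp_sum]
  refine Finset.prod_le_prod ?_ ?_
  · intro q _
    have := Real.exp_pos (s * (1 - π q.1 q.2) * wt A B q)
    have := Real.exp_pos (- s * π q.1 q.2 * wt A B q)
    have := (hπ q.1 q.2).1
    have : 0 ≤ 1 - π q.1 q.2 := by linarith [(hπ q.1 q.2).2]
    positivity
  · intro q _
    have hw : (wt A B q : ℝ) ≤ 2 := by exact_mod_cast wt_le_two A B q
    have hw0 : (0 : ℝ) ≤ wt A B q := Nat.cast_nonneg _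
    set w : ℝ := (wt A B q : ℝ) with hwdef
    obtain ⟨hp0, hp1⟩ := hπ q.1 q.2
    set p : ℝ := π q.1 q.2 with hp
    have hx : |s * w| ≤ 1 := by
      rw [abs_mul, abs_of_nonneg hw0]
      nlinarith [abs_nonneg s]
    have h3 : Real.exp (s * w) ≤ 1 + s * w + (s * w) ^ 2 := by
      have := Real.abs_exp_sub_one_sub_id_le hx
      have := (abs_le.1 this).2
      linarith
    have h4 : p * Real.exp (s * (1 - p) * w) + (1 - p) * Real.exp (- s * p * w) =
        Real.exp (- s * p * w) * (p * Real.exp (s * w) + (1 - p)) := by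
      have : Real.exp (s * (1 - p) * w) = Real.exp (- s * p * w) * Real.exp (s * w) := by
        rw [← Real.exp_add]
        congr 1
        ring
      rw [this]
      ring
    have h5 : p * Real.exp (s * w) + (1 - p) ≤ Real.exp (p * (s * w) + p * (s * w) ^ 2) := by
      have := Real.add_one_le_exp (p * (s * w) + p * (s * w) ^ 2)
      nlinarith
    calc p * Real.exp (s * (1 - p) * w) + (1 - p) * Real.exp (- s * p * w)
        = Real.exp (- s * p * w) * (p * Real.exp (s * w) + (1 - p)) := h4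
      _ ≤ Real.exp (- s * p * w) * Real.exp (p * (s * w) + p * (s * w) ^ 2) :=
          mul_le_mul_of_nonneg_left h5 (Real.exp_pos _).le
      _ = Real.exp (p * (s * w) ^ 2) := by
          rw [← Real.exp_add]
          congr 1
          ring
      _ ≤ Real.exp (2 * s ^ 2 * w) := by
          apply Real.exp_le_exp.2
          have h6 : (s * w) ^ 2 ≤ 2 * s ^ 2 * w := by
            nlinarith [mul_nonneg (sq_nonneg s) (mul_nonneg hw0 (sub_nonneg.2 hw))]
          have h7 : 0 ≤ (s * w) ^ 2 := sq_nonneg _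
          nlinarith

/-- Markov inequality for the finite model -/
lemma markov {n : ℕ} {π : Fin n → Fin n → ℝ} (hπ : IsP n π) (P : SimpleGraph (Fin n) → Prop)
    (X : SimpleGraph (Fin n) → ℝ) (u : ℝ) (h : ∀ G, P G → u ≤ X G) :
    prob n π P ≤ Real.exp (-u) * ∑ G : SimpleGraph (Fin n), wgt n π G * Real.exp (X G) := by
  unfold prob
  rw [Finset.mul_sum]
  calc ∑ G : SimpleGraph (Fin n) with P G, wgt n π G
      ≤ ∑ G : SimpleGraph (Fin n) with P G,
          Real.exp (-u) * (wgt n π G * Real.exp (X G)) := by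
        refine Finset.sum_le_sum ?_
        intro G hG
        simp only [mem_filter, mem_univ, true_and] at hG
        have h1 := h G hG
        have h2 : 1 ≤ Real.exp (-u) * Real.exp (X G) := by
          rw [← Real.exp_add]
          apply Real.one_le_exp
          linarith
        have h3 := wgt_nonneg hπ G
        calc wgt n π G = wgt n π G * 1 := by ring
          _ ≤ wgt n π G * (Real.exp (-u) * Real.exp (X G)) :=
              mul_le_mul_of_nonneg_left h2 h3
          _ = _ := by ring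
    _ ≤ ∑ G : SimpleGraph (Fin n), Real.exp (-u) * (wgt n π G * Real.exp (X G)) := by
        refine Finset.sum_le_sum_of_subset_of_nonneg (filter_subset _ _) ?_
        intro G _ _
        have h3 := wgt_nonneg hπ G
        positivity

lemma prob_or {n : ℕ} {π : Fin n → Fin n → ℝ} (hπ : IsP n π)
    (P Q : SimpleGraph (Fin n) → Prop) :
    prob n π (fun G => P G ∨ Q G) ≤ prob n π P + prob n π Q := by
  unfold prob
  refine le_trans (le_of_eq (Finset.sum_congr (s₂ := univ.filter P ∪ univ.filter Q) ?_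
    (fun _ _ => rfl))) ?_
  · ext G
    simp
  have h2 := Finset.sum_union_inter (s₁ := univ.filter P) (s₂ := univ.filter Q)
    (f := wgt n π)
  have h3 : 0 ≤ ∑ G ∈ univ.filter P ∩ univ.filter Q, wgt n π G :=
    Finset.sum_nonneg fun G _ => wgt_nonneg hπ G
  linarith

lemma prob_exists {n : ℕ} {π : Fin n → Fin n → ℝ} (hπ : IsP n π) {ι : Type*}
    (s : Finset ι) (P : ι → SimpleGraph (Fin n) → Prop) :
    prob n π (fun G => ∃ i ∈ s, P i G) ≤ ∑ i ∈ s, prob n π (P i) := by
  induction s using Finset.induction_on with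
  | empty =>
    simp [prob]
  | insert a s ha ih =>
    rw [Finset.sum_insert ha]
    refine le_trans ?_ (add_le_add le_rfl ih)
    refine le_trans ?_ (prob_or hπ _ _)
    apply prob_mono hπ
    intro G hG
    obtain ⟨i, hi, hP⟩ := hG
    rw [Finset.mem_insert] at hi
    rcases hi with rfl | hi
    · exact Or.inl hP
    · exact Or.inr ⟨i, hi, hP⟩

/-- tail bound for one pair. -/
lemma tail_pair {n : ℕ} {π : Fin n → Fin n → ℝ} (hπ : IsP n π) {p₁ p₂ : ℝ} (hp1 : p₁ ≤ 1)
    (hπ1 : ∀ i j, p₁ ≤ π i j) (hπ2 : ∀ i j, π i j ≤ p₂) (hp2 : 0 ≤ p₂)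
    {ε : ℝ} (hε : 0 < ε) (hε1 : ε ≤ 1)
    (A B : Finset (Fin n)) {M : ℝ} (hMA : (A.card : ℝ) ≤ M) (hMB : (B.card : ℝ) ≤ M)
    (hM : 2 / ε ≤ M) :
    prob n π (fun G => ¬ (p₁ * A.card * B.card - ε * M ^ 2 ≤ (eAB G A B : ℝ) ∧
        (eAB G A B : ℝ) ≤ p₂ * A.card * B.card + ε * M ^ 2)) ≤
      2 * Real.exp (- (ε ^ 2 * M ^ 2 / 32)) := by
  have hM0 : 0 < M := lt_of_lt_of_le (by positivity) hM
  have hcard : (∑ q ∈ prs n, (wt A B q : ℝ)) + ((A ∩ B).card : ℝ) = A.card * B.card := by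
    exact_mod_cast sum_wt A B
  set W : ℝ := ∑ q ∈ prs n, (wt A B q : ℝ) with hW
  set E : ℝ := ∑ q ∈ prs n, π q.1 q.2 * (wt A B q : ℝ) with hE
  have hE1 : p₁ * W ≤ E := by
    rw [hW, hE, Finset.mul_sum]
    exact Finset.sum_le_sum fun q _ => mul_le_mul_of_nonneg_right (hπ1 _ _) (Nat.cast_nonneg _)
  have hE2 : E ≤ p₂ * W := by
    rw [hW, hE, Finset.mul_sum]
    exact Finset.sum_le_sum fun q _ => mul_le_mul_of_nonneg_right (hπ2 _ _) (Nat.cast_nonneg _)
  have hI0 : (0 : ℝ) ≤ (A ∩ B).card := Nat.cast_nonneg _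
  have hI1 : ((A ∩ B).card : ℝ) ≤ M := by
    refine le_trans ?_ hMA
    exact_mod_cast Finset.card_le_card Finset.inter_subset_left
  have hW1 : W ≤ M ^ 2 := by
    have : (A.card : ℝ) * B.card ≤ M * M :=
      mul_le_mul hMA hMB (Nat.cast_nonneg _) hM0.le
    nlinarith
  have hW0 : 0 ≤ W := Finset.sum_nonneg fun q _ => Nat.cast_nonneg _
  have hMM : M ≤ ε / 2 * M ^ 2 := by
    have h1 : 1 ≤ ε / 2 * M := by
      have := (div_le_iff₀ hε).1 hM
      linarith
    nlinarith
  have key : ∀ G : SimpleGraph (Fin n),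
      ¬ (p₁ * A.card * B.card - ε * M ^ 2 ≤ (eAB G A B : ℝ) ∧
        (eAB G A B : ℝ) ≤ p₂ * A.card * B.card + ε * M ^ 2) →
      (ε / 2 * M ^ 2 ≤ (eAB G A B : ℝ) - E) ∨
        (ε / 2 * M ^ 2 ≤ -((eAB G A B : ℝ) - E)) := by
    intro G hG
    by_contra hcon
    push Not at hcon
    obtain ⟨h1, h2⟩ := hcon
    apply hG
    have hpI : p₁ * ((A ∩ B).card : ℝ) ≤ M := by nlinarith
    have hpI0 : 0 ≤ p₂ * ((A ∩ B).card : ℝ) := by positivity
    have e1 : p₁ * (A.card : ℝ) * B.card = p₁ * W + p₁ * ((A ∩ B).card : ℝ) := by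
      rw [mul_assoc, ← hcard]
      ring
    have e2 : p₂ * (A.card : ℝ) * B.card = p₂ * W + p₂ * ((A ∩ B).card : ℝ) := by
      rw [mul_assoc, ← hcard]
      ring
    rw [e1, e2]
    constructor
    · linarith
    · linarith
  refine (prob_mono hπ key).trans ?_
  refine (prob_or hπ _ _).trans ?_
  have hs : |ε / 8| ≤ 1 / 2 := by
    rw [abs_of_pos (by positivity)]
    linarith
  have hs' : |-(ε / 8)| ≤ 1 / 2 := by
    rw [abs_neg]
    exact hs
  have hup := mgf_bound hπ A B hs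
  have hlo := mgf_bound hπ A B hs'
  rw [← hW, ← hE] at hup hlo
  have hfin : Real.exp (-(ε / 8 * (ε / 2 * M ^ 2))) * Real.exp (2 * (ε / 8) ^ 2 * W) ≤
      Real.exp (- (ε ^ 2 * M ^ 2 / 32)) := by
    rw [← Real.exp_add]
    apply Real.exp_le_exp.2
    nlinarith [mul_le_mul_of_nonneg_left hW1 (sq_nonneg ε)]
  have m1 := markov hπ (fun G => ε / 2 * M ^ 2 ≤ (eAB G A B : ℝ) - E)
    (fun G => ε / 8 * ((eAB G A B : ℝ) - E)) (ε / 8 * (ε / 2 * M ^ 2)) (by
      intro G hG
      exact mul_le_mul_of_nonneg_left hG (by positivity))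
  have m2 := markov hπ (fun G => ε / 2 * M ^ 2 ≤ -((eAB G A B : ℝ) - E))
    (fun G => -(ε / 8) * ((eAB G A B : ℝ) - E)) (ε / 8 * (ε / 2 * M ^ 2)) (by
      intro G hG
      have := mul_le_mul_of_nonneg_left hG (show (0 : ℝ) ≤ ε / 8 by positivity)
      linarith)
  have hlo' : ∑ G : SimpleGraph (Fin n), wgt n π G *
      Real.exp (-(ε / 8) * ((eAB G A B : ℝ) - E)) ≤ Real.exp (2 * (ε / 8) ^ 2 * W) := by
    refine hlo.trans ?_
    rw [neg_sq]
  have n1 := m1.trans ((mul_le_mul_of_nonneg_left hup (Real.exp_pos _).le).trans hfin)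
  have n2 := m2.trans ((mul_le_mul_of_nonneg_left hlo' (Real.exp_pos _).le).trans hfin)
  linarith

lemma not_biJ {n : ℕ} {π : Fin n → Fin n → ℝ} (hπ : IsP n π) {p₁ p₂ : ℝ} (hp1 : p₁ ≤ 1)
    (hπ1 : ∀ i j, p₁ ≤ π i j) (hπ2 : ∀ i j, π i j ≤ p₂) (hp2 : 0 ≤ p₂)
    {ε : ℝ} (hε : 0 < ε) (hε1 : ε ≤ 1)
    (hn : 1 ≤ n) {m : ℝ} (hm1 : 1 ≤ m) (hm2 : 2 / ε ≤ m) (hm : 160 / ε ^ 2 * Real.log n ≤ m) :
    prob n π (fun G => ¬ BiJ G p₁ p₂ ε m) ≤ 2 * Real.exp 2 / n := by
  have hnpos : (0 : ℝ) < n := by exact_mod_cast hn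
  have hlog : 0 ≤ Real.log n := Real.log_natCast_nonneg n
  have key : ∀ G : SimpleGraph (Fin n), ¬ BiJ G p₁ p₂ ε m →
      ∃ q ∈ (univ : Finset (Finset (Fin n) × Finset (Fin n))),
        ¬ (p₁ * q.1.card * q.2.card - ε * (max (max (q.1.card : ℝ) (q.2.card : ℝ)) m) ^ 2 ≤
            (eAB G q.1 q.2 : ℝ) ∧ (eAB G q.1 q.2 : ℝ) ≤ p₂ * q.1.card * q.2.card +
            ε * (max (max (q.1.card : ℝ) (q.2.card : ℝ)) m) ^ 2) := by
    intro G hG
    unfold BiJ at hG
    rw [not_forall] at hG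
    obtain ⟨A, hG⟩ := hG
    rw [not_forall] at hG
    obtain ⟨B, hAB⟩ := hG
    refine ⟨(A, B), mem_univ _, ?_⟩
    rw [sum_eq_eAB] at hAB
    exact hAB
  refine (prob_mono hπ key).trans ?_
  refine (prob_exists hπ univ _).trans ?_
  set x : ℝ := Real.exp (-(2 * Real.log n)) with hx
  have hx0 : 0 < x := Real.exp_pos _
  have hxn : x * n ≤ 1 := by
    have h1 : (n : ℝ) = Real.exp (Real.log n) := (Real.exp_log hnpos).symm
    rw [hx]
    calc Real.exp (-(2 * Real.log n)) * n = Real.exp (-(2 * Real.log n)) * Real.exp (Real.log n) := by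
          rw [← h1]
      _ = Real.exp (-(Real.log n)) := by
          rw [← Real.exp_add]
          congr 1
          ring
      _ ≤ 1 := by
          rw [Real.exp_le_one_iff]
          linarith
  have hone : ∀ q : Finset (Fin n) × Finset (Fin n),
      prob n π (fun G => ¬ (p₁ * q.1.card * q.2.card -
            ε * (max (max (q.1.card : ℝ) (q.2.card : ℝ)) m) ^ 2 ≤
            (eAB G q.1 q.2 : ℝ) ∧ (eAB G q.1 q.2 : ℝ) ≤ p₂ * q.1.card * q.2.card +
            ε * (max (max (q.1.card : ℝ) (q.2.card : ℝ)) m) ^ 2)) ≤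
        2 / n * (x ^ q.1.card * x ^ q.2.card) := by
    intro q
    set M : ℝ := max (max (q.1.card : ℝ) (q.2.card : ℝ)) m with hM
    have hMA : (q.1.card : ℝ) ≤ M := (le_max_left _ _).trans (le_max_left _ _)
    have hMB : (q.2.card : ℝ) ≤ M := (le_max_right _ _).trans (le_max_left _ _)
    have hMm : m ≤ M := le_max_right _ _
    refine (tail_pair hπ hp1 hπ1 hπ2 hp2 hε hε1 q.1 q.2 hMA hMB (hm2.trans hMm)).trans ?_
    have h2 : Real.exp (-(ε ^ 2 * M ^ 2 / 32)) ≤
        Real.exp (-(Real.log n)) * (x ^ q.1.card * x ^ q.2.card) := by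
      rw [hx, ← Real.exp_nat_mul, ← Real.exp_nat_mul, ← Real.exp_add, ← Real.exp_add]
      apply Real.exp_le_exp.2
      have h3 : 160 * Real.log n ≤ ε ^ 2 * m := by
        have : 160 / ε ^ 2 * Real.log n = (160 * Real.log n) / ε ^ 2 := by ring
        rw [this, div_le_iff₀ (by positivity)] at hm
        linarith
      have h4 : ε ^ 2 * M ^ 2 ≥ 160 * Real.log n * M := by
        have hM0 : 0 ≤ M := (Nat.cast_nonneg _).trans hMA
        have h5 : ε ^ 2 * m * M ≤ ε ^ 2 * M * M := by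
          have : ε ^ 2 * m ≤ ε ^ 2 * M := mul_le_mul_of_nonneg_left hMm (sq_nonneg _)
          exact mul_le_mul_of_nonneg_right this hM0
        have h6 : 160 * Real.log n * M ≤ ε ^ 2 * m * M := mul_le_mul_of_nonneg_right h3 hM0
        nlinarith
      have h7 : Real.log n * (q.1.card : ℝ) ≤ Real.log n * M := mul_le_mul_of_nonneg_left hMA hlog
      have h8 : Real.log n * (q.2.card : ℝ) ≤ Real.log n * M := mul_le_mul_of_nonneg_left hMB hlog
      have h9 : Real.log n * 1 ≤ Real.log n * M :=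
        mul_le_mul_of_nonneg_left (hm1.trans hMm) hlog
      nlinarith
    have h10 : Real.exp (-(Real.log n)) = 1 / n := by
      rw [Real.exp_neg, Real.exp_log hnpos, one_div]
    rw [h10] at h2
    calc 2 * Real.exp (-(ε ^ 2 * M ^ 2 / 32)) ≤ 2 * (1 / n * (x ^ q.1.card * x ^ q.2.card)) :=
          mul_le_mul_of_nonneg_left h2 (by norm_num)
      _ = _ := by ring
  refine (Finset.sum_le_sum fun q _ => hone q).trans ?_
  rw [← Finset.mul_sum]
  have hsum : ∑ q : Finset (Fin n) × Finset (Fin n), x ^ q.1.card * x ^ q.2.card =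
      ((1 + x) ^ n) ^ 2 := by
    rw [← Finset.univ_product_univ, Finset.sum_product, sq]
    simp_rw [← Finset.mul_sum]
    rw [← Finset.sum_mul]
    have h := Fintype.sum_pow_mul_eq_add_pow (Fin n) x (1 : ℝ)
    simp only [one_pow, mul_one, Fintype.card_fin] at h
    rw [h, add_comm]
  rw [hsum]
  have h11 : (1 + x) ^ n ≤ Real.exp 1 := by
    have h12 : 1 + x ≤ Real.exp x := by
      have := Real.add_one_le_exp x
      linarith
    calc (1 + x) ^ n ≤ (Real.exp x) ^ n := pow_le_pow_left₀ (by positivity) h12 n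
      _ = Real.exp (n * x) := (Real.exp_nat_mul x n).symm
      _ ≤ Real.exp 1 := by
          apply Real.exp_le_exp.2
          linarith
  have h13 : ((1 + x) ^ n) ^ 2 ≤ Real.exp 2 := by
    calc ((1 + x) ^ n) ^ 2 ≤ (Real.exp 1) ^ 2 := pow_le_pow_left₀ (by positivity) h11 2
      _ = Real.exp 2 := by
          rw [← Real.exp_nat_mul]
          norm_num
  calc 2 / (n : ℝ) * ((1 + x) ^ n) ^ 2 ≤ 2 / n * Real.exp 2 :=
        mul_le_mul_of_nonneg_left h13 (by positivity)
    _ = 2 * Real.exp 2 / n := by ring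

/-- For all `0 ≤ p₁ ≤ p₂ ≤ 1` and `ε > 0` there is `C` such that `BiJ` holds at scale `C' log n`,
`C' ≥ C`, with probability tending to 1, uniformly in the edge probabilities. -/
theorem biJ_whp {p₁ p₂ : ℝ} (h0 : 0 ≤ p₁) (h12 : p₁ ≤ p₂) (h2 : p₂ ≤ 1) {ε : ℝ} (hε : 0 < ε) :
    ∃ C : ℝ, 0 < C ∧ ∀ C' : ℝ, C ≤ C' → ∀ η : ℝ, 0 < η → ∃ n₀ : ℕ, ∀ n : ℕ, n₀ ≤ n →
      ∀ π : Fin n → Fin n → ℝ, (∀ i j, p₁ ≤ π i j ∧ π i j ≤ p₂) →
        1 - η ≤ prob n π (fun G => BiJ G p₁ p₂ ε (C' * Real.log n)) := by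
  set ε₁ : ℝ := min ε 1 with hε₁
  have e0 : 0 < ε₁ := lt_min hε one_pos
  have e1 : ε₁ ≤ 1 := min_le_right _ _
  have e2 : ε₁ ≤ ε := min_le_left _ _
  refine ⟨160 / ε₁ ^ 2, by positivity, ?_⟩
  intro C' hC' η hη
  have hC0 : 0 < C' := lt_of_lt_of_le (by positivity) hC'
  have hlogt : Tendsto (fun n : ℕ => C' * Real.log n) atTop atTop :=
    (Real.tendsto_log_atTop.comp tendsto_natCast_atTop_atTop).const_mul_atTop hC0
  have h3 : Tendsto (fun n : ℕ => 2 * Real.exp 2 / (n : ℝ)) atTop (𝓝 0) :=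
    tendsto_const_nhds.div_atTop tendsto_natCast_atTop_atTop
  have hev : ∀ᶠ n : ℕ in atTop, 1 ≤ C' * Real.log n ∧ 2 / ε₁ ≤ C' * Real.log n ∧ 1 ≤ n ∧
      2 * Real.exp 2 / (n : ℝ) < η := by
    filter_upwards [hlogt.eventually_ge_atTop 1, hlogt.eventually_ge_atTop (2 / ε₁),
      eventually_ge_atTop 1, h3.eventually_lt_const hη] with n a1 a2 a3 a4
    exact ⟨a1, a2, a3, a4⟩
  obtain ⟨n₀, hn₀⟩ := eventually_atTop.1 hev
  refine ⟨n₀, ?_⟩
  intro n hn π hπ
  obtain ⟨hn1, hn2, hn3, hn4⟩ := hn₀ n hn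
  have hP : IsP n π := fun i j => ⟨h0.trans (hπ i j).1, (hπ i j).2.trans h2⟩
  have h4 := not_biJ hP (h12.trans h2) (fun i j => (hπ i j).1) (fun i j => (hπ i j).2)
    (h0.trans h12) e0 e1 hn3 hn1 hn2
    (mul_le_mul_of_nonneg_right hC' (Real.log_natCast_nonneg n))
  have h5 := prob_compl π (fun G => BiJ G p₁ p₂ ε₁ (C' * Real.log n))
  have h6 : prob n π (fun G => BiJ G p₁ p₂ ε₁ (C' * Real.log n)) ≤
      prob n π (fun G => BiJ G p₁ p₂ ε (C' * Real.log n)) :=
    prob_mono hP fun G hG => hG.mono e0.le e2 le_rfl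
  linarith

end

end SNInh
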