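import Mathlib
import Pool.Agent.Helper83.CVE
import Pool.Agent.Helper83.OmegaB

namespace CVE

/-- CRT for a finite family of pairwise coprime moduli, over the integers -/
theorem crt_int (P : Finset ℕ) (hP : ∀ p ∈ P, ∀ q ∈ P, p ≠ q → Nat.Coprime p q) (y : ℕ → ℤ) :
    ∃ x : ℤ, ∀ p ∈ P, (p : ℤ) ∣ x - y p := by
  classical
  induction P using Finset.induction_on with
  | empty => exact ⟨0, by simp⟩
  | insert q P hq ih =>
    obtain ⟨x, hx⟩ := ih (fun p hp r hr h => hP p (Finset.mem_insert_of_mem hp) r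
      (Finset.mem_insert_of_mem hr) h)
    have hco : IsCoprime ((∏ p ∈ P, (p : ℤ))) (q : ℤ) := by
      refine IsCoprime.prod_left (fun p hp => ?_)
      refine Nat.isCoprime_iff_coprime.2 (hP p (Finset.mem_insert_of_mem hp) q
        (Finset.mem_insert_self _ _) (fun h => hq (h ▸ hp)))
    obtain ⟨a, b, hab⟩ := hco
    -- x' = x + (y q - x) * (a * ∏)
    refine ⟨x + (y q - x) * (a * ∏ p ∈ P, (p : ℤ)), fun p hp => ?_⟩
    rcases Finset.mem_insert.1 hp with rfl | hp
    · have : x + (y p - x) * (a * ∏ p ∈ P, (p : ℤ)) - y p = (p : ℤ) * (-(y p - x) * b) := by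
        linear_combination (y p - x) * hab
      rw [this]; exact dvd_mul_right _ _
    · have h1 : (p : ℤ) ∣ ∏ p ∈ P, (p : ℤ) := Finset.dvd_prod_of_mem _ hp
      have : x + (y q - x) * (a * ∏ p ∈ P, (p : ℤ)) - y p =
        (x - y p) + (y q - x) * a * ∏ p ∈ P, (p : ℤ) := by ring
      rw [this]
      exact dvd_add (hx p hp) (h1.mul_left _)

/-- SIEVE. Pairwise coprime positive moduli `p ∈ P`, for each a finite set `F p` of forbidden
classes which leaves some class free: every interval of length `2 ^ ∑ |F p|` contains an integer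
avoiding all of them. -/
theorem sieve (P : Finset ℕ) (hP : ∀ p ∈ P, ∀ q ∈ P, p ≠ q → Nat.Coprime p q)
    (h0 : ∀ p ∈ P, 0 < p) (F : ℕ → Finset ℤ)
    (hF : ∀ p ∈ P, ∃ y : ℤ, ∀ a ∈ F p, ¬ (p : ℤ) ∣ y - a) (s : ℤ) :
    ∃ x : ℤ, s ≤ x ∧ x < s + 2 ^ (∑ p ∈ P, (F p).card) ∧
      ∀ p ∈ P, ∀ a ∈ F p, ¬ (p : ℤ) ∣ x - a := by
  classical
  choose! y hy using hF
  obtain ⟨x0, hx0⟩ := crt_int P hP y
  set T : Finset (Σ _ : ℕ, ℤ) := P.sigma F with hT
  have hcard : T.card = ∑ p ∈ P, (F p).card := Finset.card_sigma _ _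
  have hmem : ∀ t : (Σ _ : ℕ, ℤ), t ∈ T → t.1 ∈ P ∧ t.2 ∈ F t.1 := fun t ht => by
    rw [hT, Finset.mem_sigma] at ht; exact ht
  have e := T.equivFin
  obtain ⟨x, h1, h2, h3⟩ := cve T.card (fun i => (e.symm i).1.2) (fun i => ((e.symm i).1.1 : ℤ))
    (fun i => by
      have := hmem _ (e.symm i).2
      exact_mod_cast h0 _ this.1)
    ⟨x0, fun i hi => by
      have := hmem _ (e.symm i).2
      refine hy _ this.1 _ this.2 ?_
      have h4 := hx0 _ this.1
      have h5 := dvd_sub hi h4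
      have h6 : x0 - (e.symm i).1.2 - (x0 - y (e.symm i).1.1) = y (e.symm i).1.1 - (e.symm i).1.2 := by
        ring
      rwa [h6] at h5⟩ s
  refine ⟨x, h1, by rwa [hcard] at h2, fun p hp a ha hd => ?_⟩
  have hm : (⟨p, a⟩ : Σ _ : ℕ, ℤ) ∈ T := Finset.mem_sigma.2 ⟨hp, ha⟩
  have := h3 (e ⟨⟨p, a⟩, hm⟩)
  simp only [Equiv.symm_apply_apply] at this
  exact this hd

/-- COPRIME VALUE. `α i * x + β i`, `i < k`: if for every prime `p ∣ M` some `x` makes all
`α i * x + β i` prime to `p`, then every interval of length `2 ^ (k * ω(M))` contains an `x` with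
all `α i * x + β i` prime to `M`. -/
theorem coprime_forms {k : ℕ} (α β : Fin k → ℤ) (M : ℕ) (hM : 0 < M)
    (hp : ∀ p : ℕ, p.Prime → p ∣ M → ∃ x : ℤ, ∀ i, ¬ (p : ℤ) ∣ α i * x + β i) (s : ℤ) :
    ∃ x : ℤ, s ≤ x ∧ x < s + 2 ^ (k * M.primeFactors.card) ∧
      ∀ i, IsCoprime (α i * x + β i) (M : ℤ) := by
  classical
  -- forbidden classes
  have hex : ∀ p : ℕ, p.Prime → p ∣ M → ∀ i : Fin k, ∃ a : ℤ, ∀ x : ℤ,
      (p : ℤ) ∣ α i * x + β i → (p : ℤ) ∣ x - a := by
    intro p hpp hpM i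
    by_cases hα : (p : ℤ) ∣ α i
    · refine ⟨0, fun x hx => ?_⟩
      obtain ⟨x1, hx1⟩ := hp p hpp hpM
      exfalso
      apply hx1 i
      have h1 : (p : ℤ) ∣ β i := by
        have := dvd_sub hx (hα.mul_right x)
        simpa using this
      exact dvd_add (hα.mul_right x1) h1
    · have hco : IsCoprime (α i) (p : ℤ) := by
        have := (Nat.prime_iff_prime_int.1 hpp)
        exact ((this.coprime_iff_not_dvd).2 hα).symm
      obtain ⟨a, b, hab⟩ := hco
      refine ⟨-(a * β i), fun x hx => ?_⟩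
      have : x - -(a * β i) = a * (α i * x + β i) + (p : ℤ) * (b * x) := by
        linear_combination -x * hab
      rw [this]
      exact dvd_add (hx.mul_left _) (dvd_mul_right _ _)
  choose! A hA using hex
  obtain ⟨x, h1, h2, h3⟩ := sieve M.primeFactors
    (fun p hp q hq hne => (Nat.coprime_primes (Nat.prime_of_mem_primeFactors hp)
      (Nat.prime_of_mem_primeFactors hq)).2 hne)
    (fun p hp => (Nat.prime_of_mem_primeFactors hp).pos)
    (fun p => (Finset.univ.image (fun i => A p i)).filter (fun a => ∃ i, A p i = a ∧ ∃ x : ℤ,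
      (p : ℤ) ∣ α i * x + β i ∧ (p : ℤ) ∣ x - a))
    (fun p hpm => by
      have hpp := Nat.prime_of_mem_primeFactors hpm
      have hpM := Nat.dvd_of_mem_primeFactors hpm
      obtain ⟨x1, hx1⟩ := hp p hpp hpM
      refine ⟨x1, fun a ha hd => ?_⟩
      obtain ⟨-, i, hi, x, hx, hx'⟩ := Finset.mem_filter.1 ha
      apply hx1 i
      have h5 : (p : ℤ) ∣ x1 - x := by
        have := dvd_sub hd hx'
        have e : x1 - a - (x - a) = x1 - x := by ring
        rwa [e] at this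
      have : α i * x1 + β i = (α i * x + β i) + α i * (x1 - x) := by ring
      rw [this]
      exact dvd_add hx (h5.mul_left _)) s
  refine ⟨x, h1, lt_of_lt_of_le h2 ?_, fun i => ?_⟩
  · have : ∑ p ∈ M.primeFactors, ((Finset.univ.image (fun i => A p i)).filter
        (fun a => ∃ i, A p i = a ∧ ∃ x : ℤ, (p : ℤ) ∣ α i * x + β i ∧ (p : ℤ) ∣ x - a)).card
        ≤ k * M.primeFactors.card := by
      calc _ ≤ ∑ _p ∈ M.primeFactors, k := by
            refine Finset.sum_le_sum (fun p _ => ?_)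
            refine (Finset.card_filter_le _ _).trans ?_
            refine Finset.card_image_le.trans ?_
            simp
        _ = k * M.primeFactors.card := by rw [Finset.sum_const, smul_eq_mul, mul_comm]
    have h9 : (2 : ℤ) ^ (∑ p ∈ M.primeFactors, ((Finset.univ.image (fun i => A p i)).filter
        (fun a => ∃ i, A p i = a ∧ ∃ x : ℤ, (p : ℤ) ∣ α i * x + β i ∧ (p : ℤ) ∣ x - a)).card)
        ≤ 2 ^ (k * M.primeFactors.card) := pow_le_pow_right₀ (by norm_num) this
    linarith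
  · by_contra hnc
    rw [Int.isCoprime_iff_gcd_eq_one] at hnc
    obtain ⟨p, hpp, hpd⟩ := Nat.exists_prime_and_dvd hnc
    have hd1 : (p : ℤ) ∣ α i * x + β i := (Int.natCast_dvd_natCast.2 hpd).trans (Int.gcd_dvd_left _ _)
    have hd2 : (p : ℤ) ∣ (M : ℤ) := (Int.natCast_dvd_natCast.2 hpd).trans (Int.gcd_dvd_right _ _)
    have hpM : p ∣ M := Int.natCast_dvd_natCast.1 hd2
    have hpm : p ∈ M.primeFactors := Nat.mem_primeFactors.2 ⟨hpp, hpM, hM.ne'⟩
    have hxa := hA p hpp hpM i x hd1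
    refine h3 p hpm (A p i) (Finset.mem_filter.2 ⟨Finset.mem_image.2 ⟨i, Finset.mem_univ _, rfl⟩,
      i, rfl, x, hd1, hxa⟩) hxa

end CVE
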