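import Pool.Agent.Helper38.Thick.Level1

/-!
# Level 1 for the class (U): all rows of the colours different from `cs` are used
-/

set_option autoImplicit false
set_option linter.unusedSectionVars false

namespace Pool.Agent.Helper83.Pack

open Pool.Agent.Helper28.BPack Pool.Agent.Helper61.Motz Pool.Agent.Helper38.Thick

/-- Mendelsohn-Dulmage: a matching of `R` and a matching of `S` combine. -/
theorem md {α : Type} [DecidableEq α] {R K S : Finset α} {t : α → Finset α}
    (ht : ∀ x ∈ R, t x ⊆ K) (hSK : S ⊆ K)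
    (h1 : ∀ X ⊆ R, X.card ≤ (X.biUnion t).card)
    (h2 : ∀ Y ⊆ S, Y.card ≤ (R.filter (fun x => ∃ k ∈ Y, k ∈ t x)).card) :
    ∃ h : α → α, (∀ x ∈ R, h x ∈ t x) ∧ (∀ x ∈ R, ∀ y ∈ R, h x = h y → x = y) ∧
      ∀ k ∈ S, ∃ x ∈ R, h x = k := by
  classical
  have hRK : R.card ≤ K.card := (h1 R (Finset.Subset.refl R)).trans
    (Finset.card_le_card (Finset.biUnion_subset.mpr ht))
  set T : {x // x ∈ R} ⊕ Fin (K.card - R.card) → Finset α :=
    Sum.elim (fun x => t x.1) (fun _ => K \ S) with hT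
  have hall : ∀ s : Finset ({x // x ∈ R} ⊕ Fin (K.card - R.card)),
      s.card ≤ (s.biUnion T).card := by
    intro s
    set X : Finset α := s.toLeft.map (Function.Embedding.subtype _) with hX
    have hXc : X.card = s.toLeft.card := by rw [hX, Finset.card_map]
    have hmX : ∀ x, x ∈ X → ∃ h : x ∈ R, (Sum.inl ⟨x, h⟩) ∈ s := by
      intro x hx
      rw [hX, Finset.mem_map] at hx
      obtain ⟨y, hy, rfl⟩ := hx
      exact ⟨y.2, Finset.mem_toLeft.mp hy⟩
    have hXR : X ⊆ R := fun x hx => (hmX x hx).1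
    have hsub : X.biUnion t ⊆ s.biUnion T := by
      intro k hk
      rw [Finset.mem_biUnion] at hk
      obtain ⟨x, hx, hkx⟩ := hk
      obtain ⟨hxR, hxs⟩ := hmX x hx
      exact Finset.mem_biUnion.mpr ⟨_, hxs, hkx⟩
    have hcs := Finset.card_toLeft_add_card_toRight (u := s)
    rcases s.toRight.eq_empty_or_nonempty with h0 | ⟨j, hj⟩
    · rw [h0, Finset.card_empty] at hcs
      have h3 := h1 X hXR
      have h4 := Finset.card_le_card hsub
      omega
    · have hj' : Sum.inr j ∈ s := Finset.mem_toRight.mp hj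
      have h3 : s.toRight.card ≤ K.card - R.card := by
        have h := Finset.card_le_univ s.toRight
        rwa [Fintype.card_fin] at h
      set Y : Finset α := S \ X.biUnion t with hY
      have h4 : K \ Y ⊆ s.biUnion T := by
        intro k hk
        rw [Finset.mem_sdiff, hY, Finset.mem_sdiff] at hk
        by_cases hkS : k ∈ S
        · have : k ∈ X.biUnion t := by
            by_contra hcon
            exact hk.2 ⟨hkS, hcon⟩
          exact hsub this
        · exact Finset.mem_biUnion.mpr ⟨_, hj', Finset.mem_sdiff.mpr ⟨hk.1, hkS⟩⟩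
      have hYS : Y ⊆ S := Finset.sdiff_subset
      have h5 := h2 Y hYS
      have h6 : R.filter (fun x => ∃ k ∈ Y, k ∈ t x) ⊆ R \ X := by
        intro x hx
        rw [Finset.mem_filter] at hx
        obtain ⟨hxR, k, hkY, hkx⟩ := hx
        rw [Finset.mem_sdiff]
        refine ⟨hxR, fun hxX => ?_⟩
        rw [hY, Finset.mem_sdiff] at hkY
        exact hkY.2 (Finset.mem_biUnion.mpr ⟨x, hxX, hkx⟩)
      have h7 := Finset.card_le_card h6
      have h8 := Finset.card_le_card h4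
      have h9 := Finset.card_sdiff_of_subset hXR
      have h10 := Finset.card_sdiff_of_subset (hYS.trans hSK)
      have h11 := Finset.card_le_card hXR
      have h12 := Finset.card_le_card (hYS.trans hSK)
      omega
  obtain ⟨f, hf, hft⟩ := (Finset.all_card_le_biUnion_card_iff_exists_injective _).mp hall
  have himg : Finset.univ.image f = K := by
    refine Finset.eq_of_subset_of_card_le ?_ ?_
    · intro k hk
      rw [Finset.mem_image] at hk
      obtain ⟨i, -, rfl⟩ := hk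
      rcases i with x | j
      · exact ht x.1 x.2 (hft (Sum.inl x))
      · exact (Finset.mem_sdiff.mp (hft (Sum.inr j))).1
    · rw [Finset.card_image_of_injective _ hf, Finset.card_univ, Fintype.card_sum,
        Fintype.card_fin, Fintype.card_coe]
      omega
  refine ⟨fun x => if h : x ∈ R then f (Sum.inl ⟨x, h⟩) else x, ?_, ?_, ?_⟩
  · intro x hx
    simp only [hx, dite_true]
    exact hft (Sum.inl ⟨x, hx⟩)
  · intro x hx y hy e
    simp only [hx, hy, dite_true] at e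
    have h3 := Sum.inl_injective (hf e)
    exact congrArg Subtype.val h3
  · intro k hk
    have h3 : k ∈ Finset.univ.image f := by rw [himg]; exact hSK hk
    rw [Finset.mem_image] at h3
    obtain ⟨i, -, hi⟩ := h3
    rcases i with x | j
    · refine ⟨x.1, x.2, ?_⟩
      simp only [x.2, dite_true]
      exact hi
    · exact absurd hk ((Finset.mem_sdiff.mp (hi ▸ hft (Sum.inr j))).2)

variable {L : Type} [Lattice L] [BoundedOrder L] [Finite L] [IsUpperModularLattice L]

/-- LEVEL 1 with all nonzero rows of the colours `≠ cs` used. -/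
theorem level1U {A R U' : Finset L} {u cs : L} {r : L → L} [DecidableEq L]
    [DecidableRel (α := L) (· ≤ ·)] {q : ℕ}
    (hA : ∀ a ∈ A, IsAtom a) (hu : rk u = 2) (hq : 1 ≤ q)
    (hU : ∀ c ∈ U', c ∈ A ∧ c ≤ u) (hUc : U'.card = q + 1) (hcs : cs ∈ U')
    (hrow : ∀ c ∈ U', ∀ x ∈ A, ¬ x ≤ u → (A.filter (· ≤ x ⊔ c)).card = q + 1)
    (hmR : ∀ x, x ∈ R ↔ x ∈ A ∧ ¬ x ≤ u ∧ r x ≠ x)
    (hr : ∀ x ∈ A, ¬ x ≤ u → r x ∈ A ∧ ¬ r x ≤ u ∧ r x ≤ x ⊔ u)
    (hrr : ∀ x ∈ A, ¬ x ≤ u → ∀ y ∈ A, ¬ y ≤ u → y ≤ x ⊔ u → r x = r y) :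
    ∃ cc : L → L, (∀ x ∈ R, cc x ∈ U' ∧ ¬ r x ≤ x ⊔ cc x) ∧
      (∀ x ∈ R, ∀ y ∈ R, x ⊔ cc x = y ⊔ cc y → x = y) ∧
      (∀ c ∈ U', c ≠ cs → ∀ z ∈ A, ¬ z ≤ u → ¬ r z ≤ z ⊔ c →
        ∃ x ∈ R, cc x = c ∧ x ⊔ c = z ⊔ c) := by
  -- basic facts
  have hne : ∀ x, ¬ x ≤ u → ∀ c ∈ U', x ≠ c := by
    rintro x hx c hc rfl
    exact hx (hU x hc).2
  have hrk : ∀ x ∈ A, ¬ x ≤ u → ∀ c ∈ U', rk (x ⊔ c) = 2 := fun x hx hxu c hc =>
    rk_line (hA x hx) (hA c (hU c hc).1) (hne x hxu c hc)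
  -- two colours on one row
  have huniq : ∀ c ∈ U', ∀ c' ∈ U', ∀ k, rk k = 2 → c ≤ k → c' ≤ k → (∃ x, ¬ x ≤ u ∧ x ≤ k) →
      c = c' := by
    intro c hc c' hc' k hk hck hc'k ⟨x, hxu, hxk⟩
    by_contra hcc
    have e := line_two (hA c (hU c hc).1) (hA c' (hU c' hc').1) hcc hck hc'k hk
      (hU c hc).2 (hU c' hc').2 hu
    exact hxu (e ▸ hxk)
  set t : L → Finset L := fun x => (U'.image (fun c => x ⊔ c)).filter (fun k => ¬ r x ≤ k) with ht
  have hmt : ∀ x k, k ∈ t x ↔ (∃ c ∈ U', x ⊔ c = k) ∧ ¬ r x ≤ k := fun x k => by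
    simp only [ht, Finset.mem_filter, Finset.mem_image]
  have hR : ∀ x ∈ R, x ∈ A ∧ ¬ x ≤ u ∧ r x ≠ x := fun x hx => (hmR x).mp hx
  have hinj : ∀ x, ¬ x ≤ u → x ∈ A → Set.InjOn (fun c => x ⊔ c) (U' : Set L) := by
    intro x hxu hxA c hc c' hc' e
    exact huniq c hc c' hc' (x ⊔ c) (hrk x hxA hxu c hc) le_sup_right
      (by change c' ≤ (fun c => x ⊔ c) c; rw [e]; exact le_sup_right) ⟨x, hxu, le_sup_left⟩
  have hdeg : ∀ x ∈ R, q ≤ (t x).card := by
    intro x hx
    obtain ⟨hxA, hxu, hrx⟩ := hR x hx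
    have h1 : (U'.image (fun c => x ⊔ c)).card = U'.card :=
      Finset.card_image_of_injOn (hinj x hxu hxA)
    have h2 : ((U'.image (fun c => x ⊔ c)).filter (fun k => r x ≤ k)).card ≤ 1 := by
      rw [Finset.card_le_one]
      intro k hk l hl
      rw [Finset.mem_filter, Finset.mem_image] at hk hl
      obtain ⟨⟨c, hc, hck⟩, hrk1⟩ := hk
      obtain ⟨⟨c', hc', hcl⟩, hrl1⟩ := hl
      have hrA := hA _ (hr x hxA hxu).1
      have e1 := line_of (hA x hxA) hrA hrx.symm (hck ▸ le_sup_left : x ≤ k) hrk1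
        (hck ▸ hrk x hxA hxu c hc)
      have e2 := line_of (hA x hxA) hrA hrx.symm (hcl ▸ le_sup_left : x ≤ l) hrl1
        (hcl ▸ hrk x hxA hxu c' hc')
      exact e1.symm.trans e2
    have h3 := Finset.card_filter_add_card_filter_not (s := U'.image (fun c => x ⊔ c))
      (fun k => r x ≤ k)
    have h4 : (t x).card = ((U'.image (fun c => x ⊔ c)).filter (fun k => ¬ r x ≤ k)).card := rfl
    omega
  have hcod : ∀ k, ∀ X ⊆ R, (X.filter (fun x => k ∈ t x)).card ≤ q := by
    intro k X hX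
    rcases (X.filter (fun x => k ∈ t x)).eq_empty_or_nonempty with h0 | ⟨x0, hx0⟩
    · rw [h0, Finset.card_empty]
      exact Nat.zero_le _
    · rw [Finset.mem_filter, hmt] at hx0
      obtain ⟨hx0X, ⟨c0, hc0, hk0⟩, -⟩ := hx0
      obtain ⟨hx0A, hx0u, -⟩ := hR x0 (hX hx0X)
      have h1 := hrow c0 hc0 x0 hx0A hx0u
      rw [hk0] at h1
      have hc0k : c0 ≤ k := hk0 ▸ le_sup_right
      have hsub : insert c0 (X.filter (fun x => k ∈ t x)) ⊆ A.filter (· ≤ k) := by
        intro z hz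
        rw [Finset.mem_insert, Finset.mem_filter, hmt] at hz
        rw [Finset.mem_filter]
        rcases hz with rfl | ⟨hz1, ⟨c, hc, hzk⟩, -⟩
        · exact ⟨(hU z hc0).1, hc0k⟩
        · exact ⟨(hR z (hX hz1)).1, hzk ▸ le_sup_left⟩
      have hnot : c0 ∉ X.filter (fun x => k ∈ t x) := by
        intro h
        rw [Finset.mem_filter] at h
        exact (hR c0 (hX h.1)).2.1 (hU c0 hc0).2
      have h2 := Finset.card_le_card hsub
      rw [Finset.card_insert_of_notMem hnot] at h2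
      omega
  set K : Finset L := R.biUnion t with hK
  set S : Finset L := K.filter (fun k => ∃ c ∈ U', c ≠ cs ∧ c ≤ k) with hS
  have hmS : ∀ k, k ∈ S → ∃ x0 ∈ R, ∃ c0 ∈ U', c0 ≠ cs ∧ x0 ⊔ c0 = k ∧ ¬ r x0 ≤ k := by
    intro k hk
    rw [hS, Finset.mem_filter, hK, Finset.mem_biUnion] at hk
    obtain ⟨⟨x0, hx0, hkx⟩, c, hc, hccs, hck⟩ := hk
    rw [hmt] at hkx
    obtain ⟨⟨c0, hc0, hk0⟩, hrk0⟩ := hkx
    obtain ⟨hx0A, hx0u, -⟩ := hR x0 hx0
    have e := huniq c0 hc0 c hc k (hk0 ▸ hrk x0 hx0A hx0u c0 hc0) (hk0 ▸ le_sup_right) hck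
      ⟨x0, hx0u, hk0 ▸ le_sup_left⟩
    exact ⟨x0, hx0, c0, hc0, e ▸ hccs, hk0, hrk0⟩
  obtain ⟨h, hht, hhinj, hhS⟩ := md (R := R) (K := K) (S := S) (t := t)
    (fun x hx => Finset.subset_biUnion_of_mem t hx) (Finset.filter_subset _ _) (by
      intro X hX
      have h := Finset.card_mul_le_card_mul (s := X) (t := X.biUnion t)
        (fun x k => k ∈ t x) (m := q) (n := q) ?_ ?_
      · exact Nat.le_of_mul_le_mul_right h (by omega)
      · intro x hx
        refine (hdeg x (hX hx)).trans (Finset.card_le_card ?_)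
        intro k hk
        rw [Finset.mem_bipartiteAbove]
        exact ⟨Finset.mem_biUnion.mpr ⟨x, hx, hk⟩, hk⟩
      · intro k _
        exact hcod k X hX) (by
      intro Y hY
      have h := Finset.card_mul_le_card_mul (s := Y)
        (t := R.filter (fun x => ∃ k ∈ Y, k ∈ t x))
        (fun k x => k ∈ t x) (m := q) (n := q) ?_ ?_
      · exact Nat.le_of_mul_le_mul_right h (by omega)
      · intro k hk
        obtain ⟨x0, hx0, c0, hc0, -, hk0, hrk0⟩ := hmS k (hY hk)
        obtain ⟨hx0A, hx0u, -⟩ := hR x0 hx0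
        have h1 := hrow c0 hc0 x0 hx0A hx0u
        rw [hk0] at h1
        have hk2 : rk k = 2 := hk0 ▸ hrk x0 hx0A hx0u c0 hc0
        have hc0k : c0 ≤ k := hk0 ▸ le_sup_right
        have hsub : A.filter (· ≤ k) ⊆ insert c0 (Finset.bipartiteAbove (fun k x => k ∈ t x)
            (R.filter (fun x => ∃ k ∈ Y, k ∈ t x)) k) := by
          intro z hz
          rw [Finset.mem_filter] at hz
          rw [Finset.mem_insert]
          by_cases hzc : z = c0
          · exact Or.inl hzc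
          right
          have hzu : ¬ z ≤ u := by
            intro hzu
            have e := line_two (hA z hz.1) (hA c0 (hU c0 hc0).1) hzc hz.2 hc0k hk2
              hzu (hU c0 hc0).2 hu
            exact hx0u (e ▸ (hk0 ▸ le_sup_left : x0 ≤ k))
          have hzr : r x0 = r z := hrr x0 hx0A hx0u z hz.1 hzu
            (hz.2.trans (hk0 ▸ sup_le_sup_left (hU c0 hc0).2 x0))
          have hzR : z ∈ R := by
            rw [hmR]
            refine ⟨hz.1, hzu, fun e => hrk0 ?_⟩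
            rw [hzr, e]
            exact hz.2
          have hkt : k ∈ t z := by
            rw [hmt]
            exact ⟨⟨c0, hc0, line_of (hA z hz.1) (hA c0 (hU c0 hc0).1) hzc hz.2 hc0k hk2⟩,
              hzr ▸ hrk0⟩
          rw [Finset.mem_bipartiteAbove, Finset.mem_filter]
          exact ⟨⟨hzR, k, hk, hkt⟩, hkt⟩
        have h2 := Finset.card_le_card hsub
        have h3 := Finset.card_insert_le c0 (Finset.bipartiteAbove (fun k x => k ∈ t x)
            (R.filter (fun x => ∃ k ∈ Y, k ∈ t x)) k)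
        omega
      · intro x hx
        rw [Finset.mem_filter] at hx
        obtain ⟨hxR, -⟩ := hx
        obtain ⟨hxA, hxu, -⟩ := hR x hxR
        have hsub : Finset.bipartiteBelow (fun k x => k ∈ t x) Y x ⊆
            (U'.erase cs).image (fun c => x ⊔ c) := by
          intro k hk
          rw [Finset.mem_bipartiteBelow, hmt] at hk
          obtain ⟨hkY, ⟨c, hc, hxk⟩, -⟩ := hk
          obtain ⟨x0, hx0, c0, hc0, hccs, hk0, -⟩ := hmS k (hY hkY)
          have e := huniq c hc c0 hc0 k (hxk ▸ hrk x hxA hxu c hc) (hxk ▸ le_sup_right)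
            (hk0 ▸ le_sup_right) ⟨x, hxu, hxk ▸ le_sup_left⟩
          rw [Finset.mem_image]
          exact ⟨c, Finset.mem_erase.mpr ⟨e ▸ hccs, hc⟩, hxk⟩
        have h1 := Finset.card_le_card hsub
        have h2 : ((U'.erase cs).image (fun c => x ⊔ c)).card ≤ (U'.erase cs).card :=
          Finset.card_image_le
        rw [Finset.card_erase_of_mem hcs] at h2
        omega)
  have hex : ∀ x : {x // x ∈ R}, ∃ c ∈ U', x.1 ⊔ c = h x.1 := fun x => ((hmt _ _).mp (hht x.1 x.2)).1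
  choose g hgU hgh using hex
  have hcc : ∀ x (hx : x ∈ R), (fun x => if h : x ∈ R then g ⟨x, h⟩ else x) x = g ⟨x, hx⟩ := by
    intro x hx
    simp only [hx, dite_true]
  refine ⟨fun x => if h : x ∈ R then g ⟨x, h⟩ else x, ?_, ?_, ?_⟩
  · intro x hx
    rw [hcc x hx]
    refine ⟨hgU ⟨x, hx⟩, ?_⟩
    rw [hgh ⟨x, hx⟩]
    exact ((hmt _ _).mp (hht x hx)).2
  · intro x hx y hy e
    rw [hcc x hx, hcc y hy, hgh ⟨x, hx⟩, hgh ⟨y, hy⟩] at e
    exact hhinj x hx y hy e
  · intro c hc hccs z hzA hzu hrz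
    have hzR : z ∈ R := by
      rw [hmR]
      refine ⟨hzA, hzu, fun e => hrz ?_⟩
      rw [e]
      exact le_sup_left
    have hkt : z ⊔ c ∈ t z := (hmt _ _).mpr ⟨⟨c, hc, rfl⟩, hrz⟩
    have hkS : z ⊔ c ∈ S := by
      rw [hS, Finset.mem_filter, hK, Finset.mem_biUnion]
      exact ⟨⟨z, hzR, hkt⟩, c, hc, hccs, le_sup_right⟩
    obtain ⟨x, hx, hxk⟩ := hhS _ hkS
    have e1 : x ⊔ g ⟨x, hx⟩ = z ⊔ c := (hgh ⟨x, hx⟩).trans hxk
    have e2 : g ⟨x, hx⟩ = c := huniq _ (hgU ⟨x, hx⟩) c hc (z ⊔ c) (hrk z hzA hzu c hc)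
      (e1 ▸ le_sup_right) le_sup_right ⟨z, hzu, le_sup_left⟩
    refine ⟨x, hx, ?_, ?_⟩
    · rw [hcc x hx]
      exact e2
    · rw [← e2]
      exact e1.trans (by rw [e2])

end Pool.Agent.Helper83.Pack
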